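import Pool.Agent.Lib.MP_af3a4a_an.P1.CHK.BIG.A0
import Pool.Agent.Lib.MP_af3a4a_an.P1.H11.Sound

/-!
# BIGR, range A: the chain in `K` (council 2, helper11)
-/

set_option autoImplicit false

namespace Pool.Agent.Lib.MP_af3a4a_an.P1.CHK.BIG

open Pool.Agent.Lib.MP_af3a4a_an.P1.H11

theorem A23 : KPr 23 0 50 :=
  KPr.step (Or.inr rfl) (by norm_num)
    (data_sound Pool.Agent.Lib.MP_af3a4a_an.P1.CHK.BIG.A0.n23_0 Pool.Agent.Lib.MP_af3a4a_an.P1.CHK.BIG.A0.t23_0 (by decide) (by decide))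

theorem A27 : KPr 27 0 50 :=
  KPr.step (Or.inl A23) (by norm_num)
    (data_sound Pool.Agent.Lib.MP_af3a4a_an.P1.CHK.BIG.A0.n27_0 Pool.Agent.Lib.MP_af3a4a_an.P1.CHK.BIG.A0.t27_0 (by decide) (by decide))

theorem A31 : KPr 31 0 50 :=
  KPr.step (Or.inl A27) (by norm_num)
    (data_sound Pool.Agent.Lib.MP_af3a4a_an.P1.CHK.BIG.A0.n31_0 Pool.Agent.Lib.MP_af3a4a_an.P1.CHK.BIG.A0.t31_0 (by decide) (by decide))

theorem A34 : KPr 34 0 50 :=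
  KPr.step (Or.inl A31) (by norm_num)
    (data_sound Pool.Agent.Lib.MP_af3a4a_an.P1.CHK.BIG.A0.n34_0 Pool.Agent.Lib.MP_af3a4a_an.P1.CHK.BIG.A0.t34_0 (by decide) (by decide))

theorem A37 : KPr 37 0 50 :=
  KPr.step (Or.inl A34) (by norm_num)
    (data_sound Pool.Agent.Lib.MP_af3a4a_an.P1.CHK.BIG.A0.n37_0 Pool.Agent.Lib.MP_af3a4a_an.P1.CHK.BIG.A0.t37_0 (by decide) (by decide))

theorem A42 : KPr 42 0 50 :=
  KPr.step (Or.inl A37) (by norm_num)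
    (data_sound Pool.Agent.Lib.MP_af3a4a_an.P1.CHK.BIG.A0.n42_0 Pool.Agent.Lib.MP_af3a4a_an.P1.CHK.BIG.A0.t42_0 (by decide) (by decide))

theorem A48 : KPr 48 0 50 :=
  KPr.step (Or.inl A42) (by norm_num)
    (data_sound Pool.Agent.Lib.MP_af3a4a_an.P1.CHK.BIG.A0.n48_0 Pool.Agent.Lib.MP_af3a4a_an.P1.CHK.BIG.A0.t48_0 (by decide) (by decide))

theorem A56 : KPr 56 0 50 :=
  KPr.step (Or.inl A48) (by norm_num)
    (data_sound Pool.Agent.Lib.MP_af3a4a_an.P1.CHK.BIG.A0.n56_0 Pool.Agent.Lib.MP_af3a4a_an.P1.CHK.BIG.A0.t56_0 (by decide) (by decide))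

theorem A68 : KPr 68 0 50 :=
  KPr.step (Or.inl A56) (by norm_num)
    (data_sound Pool.Agent.Lib.MP_af3a4a_an.P1.CHK.BIG.A0.n68_0 Pool.Agent.Lib.MP_af3a4a_an.P1.CHK.BIG.A0.t68_0 (by decide) (by decide))

theorem A80 : KPr 80 0 50 :=
  KPr.step (Or.inl A68) (by norm_num)
    (data_sound Pool.Agent.Lib.MP_af3a4a_an.P1.CHK.BIG.A0.n80_0 Pool.Agent.Lib.MP_af3a4a_an.P1.CHK.BIG.A0.t80_0 (by decide) (by decide))

theorem A96 : KPr 96 0 50 :=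
  KPr.step (Or.inl A80) (by norm_num)
    (data_sound Pool.Agent.Lib.MP_af3a4a_an.P1.CHK.BIG.A0.n96_0 Pool.Agent.Lib.MP_af3a4a_an.P1.CHK.BIG.A0.t96_0 (by decide) (by decide))

theorem A120 : KPr 120 0 50 :=
  KPr.step (Or.inl A96) (by norm_num)
    (data_sound Pool.Agent.Lib.MP_af3a4a_an.P1.CHK.BIG.A0.n120_0 Pool.Agent.Lib.MP_af3a4a_an.P1.CHK.BIG.A0.t120_0 (by decide) (by decide))

theorem A144 : KPr 144 0 50 :=
  KPr.step (Or.inl A120) (by norm_num)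
    (data_sound Pool.Agent.Lib.MP_af3a4a_an.P1.CHK.BIG.A0.n144_0 Pool.Agent.Lib.MP_af3a4a_an.P1.CHK.BIG.A0.t144_0 (by decide) (by decide))

theorem A160 : KPr 160 0 50 :=
  KPr.step (Or.inl A144) (by norm_num)
    (data_sound Pool.Agent.Lib.MP_af3a4a_an.P1.CHK.BIG.A0.n160_0 Pool.Agent.Lib.MP_af3a4a_an.P1.CHK.BIG.A0.t160_0 (by decide) (by decide))

theorem A192 : KPr 192 0 50 :=
  KPr.step (Or.inl A160) (by norm_num)
    (data_sound Pool.Agent.Lib.MP_af3a4a_an.P1.CHK.BIG.A0.n192_0 Pool.Agent.Lib.MP_af3a4a_an.P1.CHK.BIG.A0.t192_0 (by decide) (by decide))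

theorem A224 : KPr 224 0 50 :=
  KPr.step (Or.inl A192) (by norm_num)
    (data_sound Pool.Agent.Lib.MP_af3a4a_an.P1.CHK.BIG.A0.n224_0 Pool.Agent.Lib.MP_af3a4a_an.P1.CHK.BIG.A0.t224_0 (by decide) (by decide))

theorem A256 : KPr 256 0 50 :=
  KPr.step (Or.inl A224) (by norm_num)
    (data_sound Pool.Agent.Lib.MP_af3a4a_an.P1.CHK.BIG.A0.n256_0 Pool.Agent.Lib.MP_af3a4a_an.P1.CHK.BIG.A0.t256_0 (by decide) (by decide))

theorem A288 : KPr 288 0 50 :=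
  KPr.step (Or.inl A256) (by norm_num)
    (data_sound Pool.Agent.Lib.MP_af3a4a_an.P1.CHK.BIG.A0.n288_0 Pool.Agent.Lib.MP_af3a4a_an.P1.CHK.BIG.A0.t288_0 (by decide) (by decide))

theorem A320 : KPr 320 0 50 :=
  KPr.step (Or.inl A288) (by norm_num)
    (data_sound Pool.Agent.Lib.MP_af3a4a_an.P1.CHK.BIG.A0.n320_0 Pool.Agent.Lib.MP_af3a4a_an.P1.CHK.BIG.A0.t320_0 (by decide) (by decide))

theorem A352 : KPr 352 0 50 :=
  KPr.step (Or.inl A320) (by norm_num)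
    (data_sound Pool.Agent.Lib.MP_af3a4a_an.P1.CHK.BIG.A0.n352_0 Pool.Agent.Lib.MP_af3a4a_an.P1.CHK.BIG.A0.t352_0 (by decide) (by decide))

theorem A384 : KPr 384 0 50 :=
  KPr.step (Or.inl A352) (by norm_num)
    (data_sound Pool.Agent.Lib.MP_af3a4a_an.P1.CHK.BIG.A0.n384_0 Pool.Agent.Lib.MP_af3a4a_an.P1.CHK.BIG.A0.t384_0 (by decide) (by decide))

/-- the range A -/
theorem rangeA : KPr 384 0 50 := A384

end Pool.Agent.Lib.MP_af3a4a_an.P1.CHK.BIG
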