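import Pool.Agent.Lib.MP_af3a4a_an.P1.CHK.BIG.B0
import Pool.Agent.Lib.MP_af3a4a_an.P1.H11.Sound

/-!
# BIGR, range B: the chain in `K` (council 2, helper11)
-/

set_option autoImplicit false

namespace Pool.Agent.Lib.MP_af3a4a_an.P1.CHK.BIG

open Pool.Agent.Lib.MP_af3a4a_an.P1.H11

theorem B22 : KPr 22 50 110 :=
  KPr.step (Or.inr rfl) (by norm_num)
    (data_sound Pool.Agent.Lib.MP_af3a4a_an.P1.CHK.BIG.B0.n22_0 Pool.Agent.Lib.MP_af3a4a_an.P1.CHK.BIG.B0.t22_0 (by decide) (by decide))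

theorem B26 : KPr 26 50 110 :=
  KPr.step (Or.inl B22) (by norm_num)
    (data_sound Pool.Agent.Lib.MP_af3a4a_an.P1.CHK.BIG.B0.n26_0 Pool.Agent.Lib.MP_af3a4a_an.P1.CHK.BIG.B0.t26_0 (by decide) (by decide))

theorem B30 : KPr 30 50 110 :=
  KPr.step (Or.inl B26) (by norm_num)
    (data_sound Pool.Agent.Lib.MP_af3a4a_an.P1.CHK.BIG.B0.n30_0 Pool.Agent.Lib.MP_af3a4a_an.P1.CHK.BIG.B0.t30_0 (by decide) (by decide))

theorem B32 : KPr 32 50 110 :=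
  KPr.step (Or.inl B30) (by norm_num)
    (data_sound Pool.Agent.Lib.MP_af3a4a_an.P1.CHK.BIG.B0.n32_0 Pool.Agent.Lib.MP_af3a4a_an.P1.CHK.BIG.B0.t32_0 (by decide) (by decide))

theorem B35 : KPr 35 50 110 :=
  KPr.step (Or.inl B32) (by norm_num)
    (data_sound Pool.Agent.Lib.MP_af3a4a_an.P1.CHK.BIG.B0.n35_0 Pool.Agent.Lib.MP_af3a4a_an.P1.CHK.BIG.B0.t35_0 (by decide) (by decide))

theorem B40 : KPr 40 50 110 :=
  KPr.step (Or.inl B35) (by norm_num)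
    (data_sound Pool.Agent.Lib.MP_af3a4a_an.P1.CHK.BIG.B0.n40_0 Pool.Agent.Lib.MP_af3a4a_an.P1.CHK.BIG.B0.t40_0 (by decide) (by decide))

theorem B44 : KPr 44 50 110 :=
  KPr.step (Or.inl B40) (by norm_num)
    (data_sound Pool.Agent.Lib.MP_af3a4a_an.P1.CHK.BIG.B0.n44_0 Pool.Agent.Lib.MP_af3a4a_an.P1.CHK.BIG.B0.t44_0 (by decide) (by decide))

theorem B50 : KPr 50 50 110 :=
  KPr.step (Or.inl B44) (by norm_num)
    (data_sound Pool.Agent.Lib.MP_af3a4a_an.P1.CHK.BIG.B0.n50_0 Pool.Agent.Lib.MP_af3a4a_an.P1.CHK.BIG.B0.t50_0 (by decide) (by decide))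

theorem B58 : KPr 58 50 110 :=
  KPr.step (Or.inl B50) (by norm_num)
    (data_sound Pool.Agent.Lib.MP_af3a4a_an.P1.CHK.BIG.B0.n58_0 Pool.Agent.Lib.MP_af3a4a_an.P1.CHK.BIG.B0.t58_0 (by decide) (by decide))

theorem B68 : KPr 68 50 110 :=
  KPr.step (Or.inl B58) (by norm_num)
    (data_sound Pool.Agent.Lib.MP_af3a4a_an.P1.CHK.BIG.B0.n68_0 Pool.Agent.Lib.MP_af3a4a_an.P1.CHK.BIG.B0.t68_0 (by decide) (by decide))

theorem B80 : KPr 80 50 110 :=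
  KPr.step (Or.inl B68) (by norm_num)
    (data_sound Pool.Agent.Lib.MP_af3a4a_an.P1.CHK.BIG.B0.n80_0 Pool.Agent.Lib.MP_af3a4a_an.P1.CHK.BIG.B0.t80_0 (by decide) (by decide))

theorem B100 : KPr 100 50 110 :=
  KPr.step (Or.inl B80) (by norm_num)
    (data_sound Pool.Agent.Lib.MP_af3a4a_an.P1.CHK.BIG.B0.n100_0 Pool.Agent.Lib.MP_af3a4a_an.P1.CHK.BIG.B0.t100_0 (by decide) (by decide))

theorem B120 : KPr 120 50 110 :=
  KPr.step (Or.inl B100) (by norm_num)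
    (data_sound Pool.Agent.Lib.MP_af3a4a_an.P1.CHK.BIG.B0.n120_0 Pool.Agent.Lib.MP_af3a4a_an.P1.CHK.BIG.B0.t120_0 (by decide) (by decide))

theorem B144 : KPr 144 50 110 :=
  KPr.step (Or.inl B120) (by norm_num)
    (data_sound Pool.Agent.Lib.MP_af3a4a_an.P1.CHK.BIG.B0.n144_0 Pool.Agent.Lib.MP_af3a4a_an.P1.CHK.BIG.B0.t144_0 (by decide) (by decide))

theorem B160 : KPr 160 50 110 :=
  KPr.step (Or.inl B144) (by norm_num)
    (data_sound Pool.Agent.Lib.MP_af3a4a_an.P1.CHK.BIG.B0.n160_0 Pool.Agent.Lib.MP_af3a4a_an.P1.CHK.BIG.B0.t160_0 (by decide) (by decide))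

theorem B192 : KPr 192 50 110 :=
  KPr.step (Or.inl B160) (by norm_num)
    (data_sound Pool.Agent.Lib.MP_af3a4a_an.P1.CHK.BIG.B0.n192_0 Pool.Agent.Lib.MP_af3a4a_an.P1.CHK.BIG.B0.t192_0 (by decide) (by decide))

theorem B224 : KPr 224 50 110 :=
  KPr.step (Or.inl B192) (by norm_num)
    (data_sound Pool.Agent.Lib.MP_af3a4a_an.P1.CHK.BIG.B0.n224_0 Pool.Agent.Lib.MP_af3a4a_an.P1.CHK.BIG.B0.t224_0 (by decide) (by decide))

theorem B256 : KPr 256 50 110 :=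
  KPr.step (Or.inl B224) (by norm_num)
    (data_sound Pool.Agent.Lib.MP_af3a4a_an.P1.CHK.BIG.B0.n256_0 Pool.Agent.Lib.MP_af3a4a_an.P1.CHK.BIG.B0.t256_0 (by decide) (by decide))

theorem B288 : KPr 288 50 110 :=
  KPr.step (Or.inl B256) (by norm_num)
    (data_sound Pool.Agent.Lib.MP_af3a4a_an.P1.CHK.BIG.B0.n288_0 Pool.Agent.Lib.MP_af3a4a_an.P1.CHK.BIG.B0.t288_0 (by decide) (by decide))

theorem B320 : KPr 320 50 110 :=
  KPr.step (Or.inl B288) (by norm_num)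
    (data_sound Pool.Agent.Lib.MP_af3a4a_an.P1.CHK.BIG.B0.n320_0 Pool.Agent.Lib.MP_af3a4a_an.P1.CHK.BIG.B0.t320_0 (by decide) (by decide))

theorem B352 : KPr 352 50 110 :=
  KPr.step (Or.inl B320) (by norm_num)
    (data_sound Pool.Agent.Lib.MP_af3a4a_an.P1.CHK.BIG.B0.n352_0 Pool.Agent.Lib.MP_af3a4a_an.P1.CHK.BIG.B0.t352_0 (by decide) (by decide))

theorem B384 : KPr 384 50 110 :=
  KPr.step (Or.inl B352) (by norm_num)
    (data_sound Pool.Agent.Lib.MP_af3a4a_an.P1.CHK.BIG.B0.n384_0 Pool.Agent.Lib.MP_af3a4a_an.P1.CHK.BIG.B0.t384_0 (by decide) (by decide))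

/-- the range B -/
theorem rangeB : KPr 384 50 110 := B384

end Pool.Agent.Lib.MP_af3a4a_an.P1.CHK.BIG
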