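import Pool.Agent.Lib.MP_af3a4a_an.P1.CHK.BIG.C0
import Pool.Agent.Lib.MP_af3a4a_an.P1.CHK.BIG.C1
import Pool.Agent.Lib.MP_af3a4a_an.P1.H11.Sound

/-!
# BIGR, range C: the chain in `K` (council 2, helper11)
-/

set_option autoImplicit false

namespace Pool.Agent.Lib.MP_af3a4a_an.P1.CHK.BIG

open Pool.Agent.Lib.MP_af3a4a_an.P1.H11

theorem C23 : KPr 23 110 170 :=
  KPr.step (Or.inr rfl) (by norm_num)
    (data_sound Pool.Agent.Lib.MP_af3a4a_an.P1.CHK.BIG.C0.n23_0 Pool.Agent.Lib.MP_af3a4a_an.P1.CHK.BIG.C0.t23_0 (by decide) (by decide))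

theorem C27 : KPr 27 110 170 :=
  KPr.step (Or.inl C23) (by norm_num)
    (data_sound Pool.Agent.Lib.MP_af3a4a_an.P1.CHK.BIG.C0.n27_0 Pool.Agent.Lib.MP_af3a4a_an.P1.CHK.BIG.C0.t27_0 (by decide) (by decide))

theorem C29 : KPr 29 110 170 :=
  KPr.step (Or.inl C27) (by norm_num)
    (data_sound Pool.Agent.Lib.MP_af3a4a_an.P1.CHK.BIG.C0.n29_0 Pool.Agent.Lib.MP_af3a4a_an.P1.CHK.BIG.C0.t29_0 (by decide) (by decide))

theorem C31 : KPr 31 110 170 :=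
  KPr.step (Or.inl C29) (by norm_num)
    (data_sound Pool.Agent.Lib.MP_af3a4a_an.P1.CHK.BIG.C0.n31_0 Pool.Agent.Lib.MP_af3a4a_an.P1.CHK.BIG.C0.t31_0 (by decide) (by decide))

theorem C34 : KPr 34 110 170 :=
  KPr.step (Or.inl C31) (by norm_num)
    (data_sound Pool.Agent.Lib.MP_af3a4a_an.P1.CHK.BIG.C0.n34_0 Pool.Agent.Lib.MP_af3a4a_an.P1.CHK.BIG.C0.t34_0 (by decide) (by decide))

theorem C37 : KPr 37 110 170 :=
  KPr.step (Or.inl C34) (by norm_num)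
    (data_sound Pool.Agent.Lib.MP_af3a4a_an.P1.CHK.BIG.C0.n37_0 Pool.Agent.Lib.MP_af3a4a_an.P1.CHK.BIG.C0.t37_0 (by decide) (by decide))

theorem C42 : KPr 42 110 170 :=
  KPr.step (Or.inl C37) (by norm_num)
    (data_sound Pool.Agent.Lib.MP_af3a4a_an.P1.CHK.BIG.C0.n42_0 Pool.Agent.Lib.MP_af3a4a_an.P1.CHK.BIG.C0.t42_0 (by decide) (by decide))

theorem C48 : KPr 48 110 170 :=
  KPr.step (Or.inl C42) (by norm_num)
    (data_sound Pool.Agent.Lib.MP_af3a4a_an.P1.CHK.BIG.C0.n48_0 Pool.Agent.Lib.MP_af3a4a_an.P1.CHK.BIG.C0.t48_0 (by decide) (by decide))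

theorem C56 : KPr 56 110 170 :=
  KPr.step (Or.inl C48) (by norm_num)
    (data_sound Pool.Agent.Lib.MP_af3a4a_an.P1.CHK.BIG.C0.n56_0 Pool.Agent.Lib.MP_af3a4a_an.P1.CHK.BIG.C0.t56_0 (by decide) (by decide))

theorem C64 : KPr 64 110 170 :=
  KPr.step (Or.inl C56) (by norm_num)
    (data_sound Pool.Agent.Lib.MP_af3a4a_an.P1.CHK.BIG.C0.n64_0 Pool.Agent.Lib.MP_af3a4a_an.P1.CHK.BIG.C0.t64_0 (by decide) (by decide))

theorem C76 : KPr 76 110 170 :=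
  KPr.step (Or.inl C64) (by norm_num)
    (data_sound Pool.Agent.Lib.MP_af3a4a_an.P1.CHK.BIG.C0.n76_0 Pool.Agent.Lib.MP_af3a4a_an.P1.CHK.BIG.C0.t76_0 (by decide) (by decide))

theorem C88 : KPr 88 110 170 :=
  KPr.step (Or.inl C76) (by norm_num)
    (data_sound Pool.Agent.Lib.MP_af3a4a_an.P1.CHK.BIG.C0.n88_0 Pool.Agent.Lib.MP_af3a4a_an.P1.CHK.BIG.C0.t88_0 (by decide) (by decide))

theorem C104 : KPr 104 110 170 :=
  KPr.step (Or.inl C88) (by norm_num)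
    (data_sound Pool.Agent.Lib.MP_af3a4a_an.P1.CHK.BIG.C0.n104_0 Pool.Agent.Lib.MP_af3a4a_an.P1.CHK.BIG.C0.t104_0 (by decide) (by decide))

theorem C124 : KPr 124 110 170 :=
  KPr.step (Or.inl C104) (by norm_num)
    (data_sound Pool.Agent.Lib.MP_af3a4a_an.P1.CHK.BIG.C0.n124_0 Pool.Agent.Lib.MP_af3a4a_an.P1.CHK.BIG.C0.t124_0 (by decide) (by decide))

theorem C144 : KPr 144 110 170 :=
  KPr.step (Or.inl C124) (by norm_num)
    (data_sound Pool.Agent.Lib.MP_af3a4a_an.P1.CHK.BIG.C0.n144_0 Pool.Agent.Lib.MP_af3a4a_an.P1.CHK.BIG.C0.t144_0 (by decide) (by decide))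

theorem C160 : KPr 160 110 170 :=
  KPr.step (Or.inl C144) (by norm_num)
    (data_sound Pool.Agent.Lib.MP_af3a4a_an.P1.CHK.BIG.C0.n160_0 Pool.Agent.Lib.MP_af3a4a_an.P1.CHK.BIG.C0.t160_0 (by decide) (by decide))

theorem C192 : KPr 192 110 170 :=
  KPr.step (Or.inl C160) (by norm_num)
    (data_sound Pool.Agent.Lib.MP_af3a4a_an.P1.CHK.BIG.C0.n192_0 Pool.Agent.Lib.MP_af3a4a_an.P1.CHK.BIG.C0.t192_0 (by decide) (by decide))

theorem C224 : KPr 224 110 170 :=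
  KPr.step (Or.inl C192) (by norm_num)
    (data_sound Pool.Agent.Lib.MP_af3a4a_an.P1.CHK.BIG.C0.n224_0 Pool.Agent.Lib.MP_af3a4a_an.P1.CHK.BIG.C0.t224_0 (by decide) (by decide))

theorem C256 : KPr 256 110 170 :=
  KPr.step (Or.inl C224) (by norm_num)
    (data_sound Pool.Agent.Lib.MP_af3a4a_an.P1.CHK.BIG.C0.n256_0 Pool.Agent.Lib.MP_af3a4a_an.P1.CHK.BIG.C0.t256_0 (by decide) (by decide))

theorem C288 : KPr 288 110 170 :=
  KPr.step (Or.inl C256) (by norm_num)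
    (data_sound Pool.Agent.Lib.MP_af3a4a_an.P1.CHK.BIG.C0.n288_0 Pool.Agent.Lib.MP_af3a4a_an.P1.CHK.BIG.C0.t288_0 (by decide) (by decide))

theorem C320 : KPr 320 110 170 :=
  KPr.step (Or.inl C288) (by norm_num)
    (data_sound Pool.Agent.Lib.MP_af3a4a_an.P1.CHK.BIG.C0.n320_0 Pool.Agent.Lib.MP_af3a4a_an.P1.CHK.BIG.C0.t320_0 (by decide) (by decide))

theorem C352 : KPr 352 110 170 :=
  KPr.step (Or.inl C320) (by norm_num)
    (data_sound Pool.Agent.Lib.MP_af3a4a_an.P1.CHK.BIG.C1.n352_0 Pool.Agent.Lib.MP_af3a4a_an.P1.CHK.BIG.C1.t352_0 (by decide) (by decide))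

theorem C384 : KPr 384 110 170 :=
  KPr.step (Or.inl C352) (by norm_num)
    (data_sound Pool.Agent.Lib.MP_af3a4a_an.P1.CHK.BIG.C1.n384_0 Pool.Agent.Lib.MP_af3a4a_an.P1.CHK.BIG.C1.t384_0 (by decide) (by decide))

/-- the range C -/
theorem rangeC : KPr 384 110 170 := C384

end Pool.Agent.Lib.MP_af3a4a_an.P1.CHK.BIG
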