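import Pool.Agent.Lib.MP_af3a4a_an.P1.CHK.BIG.D0
import Pool.Agent.Lib.MP_af3a4a_an.P1.H11.Sound

/-!
# BIGR, range D: the chain in `K` (council 2, helper11)
-/

set_option autoImplicit false

namespace Pool.Agent.Lib.MP_af3a4a_an.P1.CHK.BIG

open Pool.Agent.Lib.MP_af3a4a_an.P1.H11

theorem D23 : KPr 23 170 200 :=
  KPr.step (Or.inr rfl) (by norm_num)
    (data_sound Pool.Agent.Lib.MP_af3a4a_an.P1.CHK.BIG.D0.n23_0 Pool.Agent.Lib.MP_af3a4a_an.P1.CHK.BIG.D0.t23_0 (by decide) (by decide))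

theorem D27 : KPr 27 170 200 :=
  KPr.step (Or.inl D23) (by norm_num)
    (data_sound Pool.Agent.Lib.MP_af3a4a_an.P1.CHK.BIG.D0.n27_0 Pool.Agent.Lib.MP_af3a4a_an.P1.CHK.BIG.D0.t27_0 (by decide) (by decide))

theorem D29 : KPr 29 170 200 :=
  KPr.step (Or.inl D27) (by norm_num)
    (data_sound Pool.Agent.Lib.MP_af3a4a_an.P1.CHK.BIG.D0.n29_0 Pool.Agent.Lib.MP_af3a4a_an.P1.CHK.BIG.D0.t29_0 (by decide) (by decide))

theorem D31 : KPr 31 170 200 :=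
  KPr.step (Or.inl D29) (by norm_num)
    (data_sound Pool.Agent.Lib.MP_af3a4a_an.P1.CHK.BIG.D0.n31_0 Pool.Agent.Lib.MP_af3a4a_an.P1.CHK.BIG.D0.t31_0 (by decide) (by decide))

theorem D34 : KPr 34 170 200 :=
  KPr.step (Or.inl D31) (by norm_num)
    (data_sound Pool.Agent.Lib.MP_af3a4a_an.P1.CHK.BIG.D0.n34_0 Pool.Agent.Lib.MP_af3a4a_an.P1.CHK.BIG.D0.t34_0 (by decide) (by decide))

theorem D37 : KPr 37 170 200 :=
  KPr.step (Or.inl D34) (by norm_num)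
    (data_sound Pool.Agent.Lib.MP_af3a4a_an.P1.CHK.BIG.D0.n37_0 Pool.Agent.Lib.MP_af3a4a_an.P1.CHK.BIG.D0.t37_0 (by decide) (by decide))

theorem D42 : KPr 42 170 200 :=
  KPr.step (Or.inl D37) (by norm_num)
    (data_sound Pool.Agent.Lib.MP_af3a4a_an.P1.CHK.BIG.D0.n42_0 Pool.Agent.Lib.MP_af3a4a_an.P1.CHK.BIG.D0.t42_0 (by decide) (by decide))

theorem D48 : KPr 48 170 200 :=
  KPr.step (Or.inl D42) (by norm_num)
    (data_sound Pool.Agent.Lib.MP_af3a4a_an.P1.CHK.BIG.D0.n48_0 Pool.Agent.Lib.MP_af3a4a_an.P1.CHK.BIG.D0.t48_0 (by decide) (by decide))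

theorem D56 : KPr 56 170 200 :=
  KPr.step (Or.inl D48) (by norm_num)
    (data_sound Pool.Agent.Lib.MP_af3a4a_an.P1.CHK.BIG.D0.n56_0 Pool.Agent.Lib.MP_af3a4a_an.P1.CHK.BIG.D0.t56_0 (by decide) (by decide))

theorem D64 : KPr 64 170 200 :=
  KPr.step (Or.inl D56) (by norm_num)
    (data_sound Pool.Agent.Lib.MP_af3a4a_an.P1.CHK.BIG.D0.n64_0 Pool.Agent.Lib.MP_af3a4a_an.P1.CHK.BIG.D0.t64_0 (by decide) (by decide))

theorem D76 : KPr 76 170 200 :=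
  KPr.step (Or.inl D64) (by norm_num)
    (data_sound Pool.Agent.Lib.MP_af3a4a_an.P1.CHK.BIG.D0.n76_0 Pool.Agent.Lib.MP_af3a4a_an.P1.CHK.BIG.D0.t76_0 (by decide) (by decide))

theorem D88 : KPr 88 170 200 :=
  KPr.step (Or.inl D76) (by norm_num)
    (data_sound Pool.Agent.Lib.MP_af3a4a_an.P1.CHK.BIG.D0.n88_0 Pool.Agent.Lib.MP_af3a4a_an.P1.CHK.BIG.D0.t88_0 (by decide) (by decide))

theorem D104 : KPr 104 170 200 :=
  KPr.step (Or.inl D88) (by norm_num)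
    (data_sound Pool.Agent.Lib.MP_af3a4a_an.P1.CHK.BIG.D0.n104_0 Pool.Agent.Lib.MP_af3a4a_an.P1.CHK.BIG.D0.t104_0 (by decide) (by decide))

theorem D124 : KPr 124 170 200 :=
  KPr.step (Or.inl D104) (by norm_num)
    (data_sound Pool.Agent.Lib.MP_af3a4a_an.P1.CHK.BIG.D0.n124_0 Pool.Agent.Lib.MP_af3a4a_an.P1.CHK.BIG.D0.t124_0 (by decide) (by decide))

theorem D144 : KPr 144 170 200 :=
  KPr.step (Or.inl D124) (by norm_num)
    (data_sound Pool.Agent.Lib.MP_af3a4a_an.P1.CHK.BIG.D0.n144_0 Pool.Agent.Lib.MP_af3a4a_an.P1.CHK.BIG.D0.t144_0 (by decide) (by decide))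

theorem D160 : KPr 160 170 200 :=
  KPr.step (Or.inl D144) (by norm_num)
    (data_sound Pool.Agent.Lib.MP_af3a4a_an.P1.CHK.BIG.D0.n160_0 Pool.Agent.Lib.MP_af3a4a_an.P1.CHK.BIG.D0.t160_0 (by decide) (by decide))

theorem D192 : KPr 192 170 200 :=
  KPr.step (Or.inl D160) (by norm_num)
    (data_sound Pool.Agent.Lib.MP_af3a4a_an.P1.CHK.BIG.D0.n192_0 Pool.Agent.Lib.MP_af3a4a_an.P1.CHK.BIG.D0.t192_0 (by decide) (by decide))

theorem D224 : KPr 224 170 200 :=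
  KPr.step (Or.inl D192) (by norm_num)
    (data_sound Pool.Agent.Lib.MP_af3a4a_an.P1.CHK.BIG.D0.n224_0 Pool.Agent.Lib.MP_af3a4a_an.P1.CHK.BIG.D0.t224_0 (by decide) (by decide))

theorem D256 : KPr 256 170 200 :=
  KPr.step (Or.inl D224) (by norm_num)
    (data_sound Pool.Agent.Lib.MP_af3a4a_an.P1.CHK.BIG.D0.n256_0 Pool.Agent.Lib.MP_af3a4a_an.P1.CHK.BIG.D0.t256_0 (by decide) (by decide))

theorem D288 : KPr 288 170 200 :=
  KPr.step (Or.inl D256) (by norm_num)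
    (data_sound Pool.Agent.Lib.MP_af3a4a_an.P1.CHK.BIG.D0.n288_0 Pool.Agent.Lib.MP_af3a4a_an.P1.CHK.BIG.D0.t288_0 (by decide) (by decide))

theorem D320 : KPr 320 170 200 :=
  KPr.step (Or.inl D288) (by norm_num)
    (data_sound Pool.Agent.Lib.MP_af3a4a_an.P1.CHK.BIG.D0.n320_0 Pool.Agent.Lib.MP_af3a4a_an.P1.CHK.BIG.D0.t320_0 (by decide) (by decide))

theorem D352 : KPr 352 170 200 :=
  KPr.step (Or.inl D320) (by norm_num)
    (data_sound Pool.Agent.Lib.MP_af3a4a_an.P1.CHK.BIG.D0.n352_0 Pool.Agent.Lib.MP_af3a4a_an.P1.CHK.BIG.D0.t352_0 (by decide) (by decide))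

theorem D384 : KPr 384 170 200 :=
  KPr.step (Or.inl D352) (by norm_num)
    (data_sound Pool.Agent.Lib.MP_af3a4a_an.P1.CHK.BIG.D0.n384_0 Pool.Agent.Lib.MP_af3a4a_an.P1.CHK.BIG.D0.t384_0 (by decide) (by decide))

/-- the range D -/
theorem rangeD : KPr 384 170 200 := D384

end Pool.Agent.Lib.MP_af3a4a_an.P1.CHK.BIG
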