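import Pool.Agent.Lib.MP_af3a4a_an.P1.CHK.BIG.E0
import Pool.Agent.Lib.MP_af3a4a_an.P1.CHK.BIG.E1
import Pool.Agent.Lib.MP_af3a4a_an.P1.H11.Sound

/-!
# BIGR, range E: the chain in `K` (council 2, helper11)
-/

set_option autoImplicit false

namespace Pool.Agent.Lib.MP_af3a4a_an.P1.CHK.BIG

open Pool.Agent.Lib.MP_af3a4a_an.P1.H11

theorem E23 : KPr 23 200 240 :=
  KPr.step (Or.inr rfl) (by norm_num)
    (data_sound Pool.Agent.Lib.MP_af3a4a_an.P1.CHK.BIG.E0.n23_0 Pool.Agent.Lib.MP_af3a4a_an.P1.CHK.BIG.E0.t23_0 (by decide) (by decide))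

theorem E26 : KPr 26 200 240 :=
  KPr.step (Or.inl E23) (by norm_num)
    (data_sound Pool.Agent.Lib.MP_af3a4a_an.P1.CHK.BIG.E0.n26_0 Pool.Agent.Lib.MP_af3a4a_an.P1.CHK.BIG.E0.t26_0 (by decide) (by decide))

theorem E27 : KPr 27 200 240 :=
  KPr.step (Or.inl E26) (by norm_num)
    (data_sound Pool.Agent.Lib.MP_af3a4a_an.P1.CHK.BIG.E0.n27_0 Pool.Agent.Lib.MP_af3a4a_an.P1.CHK.BIG.E0.t27_0 (by decide) (by decide))

theorem E28 : KPr 28 200 240 :=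
  KPr.step (Or.inl E27) (by norm_num)
    (data_sound Pool.Agent.Lib.MP_af3a4a_an.P1.CHK.BIG.E0.n28_0 Pool.Agent.Lib.MP_af3a4a_an.P1.CHK.BIG.E0.t28_0 (by decide) (by decide))

theorem E29 : KPr 29 200 240 :=
  KPr.step (Or.inl E28) (by norm_num)
    (data_sound Pool.Agent.Lib.MP_af3a4a_an.P1.CHK.BIG.E0.n29_0 Pool.Agent.Lib.MP_af3a4a_an.P1.CHK.BIG.E0.t29_0 (by decide) (by decide))

theorem E31 : KPr 31 200 240 :=
  KPr.step (Or.inl E29) (by norm_num)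
    (data_sound Pool.Agent.Lib.MP_af3a4a_an.P1.CHK.BIG.E0.n31_0 Pool.Agent.Lib.MP_af3a4a_an.P1.CHK.BIG.E0.t31_0 (by decide) (by decide))

theorem E33 : KPr 33 200 240 :=
  KPr.step (Or.inl E31) (by norm_num)
    (data_sound Pool.Agent.Lib.MP_af3a4a_an.P1.CHK.BIG.E0.n33_0 Pool.Agent.Lib.MP_af3a4a_an.P1.CHK.BIG.E0.t33_0 (by decide) (by decide))

theorem E36 : KPr 36 200 240 :=
  KPr.step (Or.inl E33) (by norm_num)
    (data_sound Pool.Agent.Lib.MP_af3a4a_an.P1.CHK.BIG.E0.n36_0 Pool.Agent.Lib.MP_af3a4a_an.P1.CHK.BIG.E0.t36_0 (by decide) (by decide))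

theorem E40 : KPr 40 200 240 :=
  KPr.step (Or.inl E36) (by norm_num)
    (data_sound Pool.Agent.Lib.MP_af3a4a_an.P1.CHK.BIG.E0.n40_0 Pool.Agent.Lib.MP_af3a4a_an.P1.CHK.BIG.E0.t40_0 (by decide) (by decide))

theorem E44 : KPr 44 200 240 :=
  KPr.step (Or.inl E40) (by norm_num)
    (data_sound Pool.Agent.Lib.MP_af3a4a_an.P1.CHK.BIG.E0.n44_0 Pool.Agent.Lib.MP_af3a4a_an.P1.CHK.BIG.E0.t44_0 (by decide) (by decide))

theorem E48 : KPr 48 200 240 :=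
  KPr.step (Or.inl E44) (by norm_num)
    (data_sound Pool.Agent.Lib.MP_af3a4a_an.P1.CHK.BIG.E0.n48_0 Pool.Agent.Lib.MP_af3a4a_an.P1.CHK.BIG.E0.t48_0 (by decide) (by decide))

theorem E54 : KPr 54 200 240 :=
  KPr.step (Or.inl E48) (by norm_num)
    (data_sound Pool.Agent.Lib.MP_af3a4a_an.P1.CHK.BIG.E0.n54_0 Pool.Agent.Lib.MP_af3a4a_an.P1.CHK.BIG.E0.t54_0 (by decide) (by decide))

theorem E62 : KPr 62 200 240 :=
  KPr.step (Or.inl E54) (by norm_num)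
    (data_sound Pool.Agent.Lib.MP_af3a4a_an.P1.CHK.BIG.E0.n62_0 Pool.Agent.Lib.MP_af3a4a_an.P1.CHK.BIG.E0.t62_0 (by decide) (by decide))

theorem E72 : KPr 72 200 240 :=
  KPr.step (Or.inl E62) (by norm_num)
    (data_sound Pool.Agent.Lib.MP_af3a4a_an.P1.CHK.BIG.E0.n72_0 Pool.Agent.Lib.MP_af3a4a_an.P1.CHK.BIG.E0.t72_0 (by decide) (by decide))

theorem E84 : KPr 84 200 240 :=
  KPr.step (Or.inl E72) (by norm_num)
    (data_sound Pool.Agent.Lib.MP_af3a4a_an.P1.CHK.BIG.E0.n84_0 Pool.Agent.Lib.MP_af3a4a_an.P1.CHK.BIG.E0.t84_0 (by decide) (by decide))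

theorem E100 : KPr 100 200 240 :=
  KPr.step (Or.inl E84) (by norm_num)
    (data_sound Pool.Agent.Lib.MP_af3a4a_an.P1.CHK.BIG.E0.n100_0 Pool.Agent.Lib.MP_af3a4a_an.P1.CHK.BIG.E0.t100_0 (by decide) (by decide))

theorem E116 : KPr 116 200 240 :=
  KPr.step (Or.inl E100) (by norm_num)
    (data_sound Pool.Agent.Lib.MP_af3a4a_an.P1.CHK.BIG.E0.n116_0 Pool.Agent.Lib.MP_af3a4a_an.P1.CHK.BIG.E0.t116_0 (by decide) (by decide))

theorem E128 : KPr 128 200 240 :=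
  KPr.step (Or.inl E116) (by norm_num)
    (data_sound Pool.Agent.Lib.MP_af3a4a_an.P1.CHK.BIG.E0.n128_0 Pool.Agent.Lib.MP_af3a4a_an.P1.CHK.BIG.E0.t128_0 (by decide) (by decide))

theorem E144 : KPr 144 200 240 :=
  KPr.step (Or.inl E128) (by norm_num)
    (data_sound Pool.Agent.Lib.MP_af3a4a_an.P1.CHK.BIG.E0.n144_0 Pool.Agent.Lib.MP_af3a4a_an.P1.CHK.BIG.E0.t144_0 (by decide) (by decide))

theorem E160 : KPr 160 200 240 :=
  KPr.step (Or.inl E144) (by norm_num)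
    (data_sound Pool.Agent.Lib.MP_af3a4a_an.P1.CHK.BIG.E0.n160_0 Pool.Agent.Lib.MP_af3a4a_an.P1.CHK.BIG.E0.t160_0 (by decide) (by decide))

theorem E176 : KPr 176 200 240 :=
  KPr.step (Or.inl E160) (by norm_num)
    (data_sound Pool.Agent.Lib.MP_af3a4a_an.P1.CHK.BIG.E1.n176_0 Pool.Agent.Lib.MP_af3a4a_an.P1.CHK.BIG.E1.t176_0 (by decide) (by decide))

theorem E192 : KPr 192 200 240 :=
  KPr.step (Or.inl E176) (by norm_num)
    (data_sound Pool.Agent.Lib.MP_af3a4a_an.P1.CHK.BIG.E1.n192_0 Pool.Agent.Lib.MP_af3a4a_an.P1.CHK.BIG.E1.t192_0 (by decide) (by decide))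

theorem E224 : KPr 224 200 240 :=
  KPr.step (Or.inl E192) (by norm_num)
    (data_sound Pool.Agent.Lib.MP_af3a4a_an.P1.CHK.BIG.E1.n224_0 Pool.Agent.Lib.MP_af3a4a_an.P1.CHK.BIG.E1.t224_0 (by decide) (by decide))

theorem E256 : KPr 256 200 240 :=
  KPr.step (Or.inl E224) (by norm_num)
    (data_sound Pool.Agent.Lib.MP_af3a4a_an.P1.CHK.BIG.E1.n256_0 Pool.Agent.Lib.MP_af3a4a_an.P1.CHK.BIG.E1.t256_0 (by decide) (by decide))

theorem E288 : KPr 288 200 240 :=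
  KPr.step (Or.inl E256) (by norm_num)
    (data_sound Pool.Agent.Lib.MP_af3a4a_an.P1.CHK.BIG.E1.n288_0 Pool.Agent.Lib.MP_af3a4a_an.P1.CHK.BIG.E1.t288_0 (by decide) (by decide))

theorem E320 : KPr 320 200 240 :=
  KPr.step (Or.inl E288) (by norm_num)
    (data_sound Pool.Agent.Lib.MP_af3a4a_an.P1.CHK.BIG.E1.n320_0 Pool.Agent.Lib.MP_af3a4a_an.P1.CHK.BIG.E1.t320_0 (by decide) (by decide))

theorem E352 : KPr 352 200 240 :=
  KPr.step (Or.inl E320) (by norm_num)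
    (data_sound Pool.Agent.Lib.MP_af3a4a_an.P1.CHK.BIG.E1.n352_0 Pool.Agent.Lib.MP_af3a4a_an.P1.CHK.BIG.E1.t352_0 (by decide) (by decide))

theorem E384 : KPr 384 200 240 :=
  KPr.step (Or.inl E352) (by norm_num)
    (data_sound Pool.Agent.Lib.MP_af3a4a_an.P1.CHK.BIG.E1.n384_0 Pool.Agent.Lib.MP_af3a4a_an.P1.CHK.BIG.E1.t384_0 (by decide) (by decide))

/-- the range E -/
theorem rangeE : KPr 384 200 240 := E384

end Pool.Agent.Lib.MP_af3a4a_an.P1.CHK.BIG
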