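import Pool.Agent.Lib.MP_af3a4a_an.P1.CHK.BIG.F0
import Pool.Agent.Lib.MP_af3a4a_an.P1.CHK.BIG.F1
import Pool.Agent.Lib.MP_af3a4a_an.P1.H11.Sound

/-!
# BIGR, range F: the chain in `K` (council 2, helper11)
-/

set_option autoImplicit false

namespace Pool.Agent.Lib.MP_af3a4a_an.P1.CHK.BIG

open Pool.Agent.Lib.MP_af3a4a_an.P1.H11

theorem F23 : KPr 23 240 280 :=
  KPr.step (Or.inr rfl) (by norm_num)
    (data_sound Pool.Agent.Lib.MP_af3a4a_an.P1.CHK.BIG.F0.n23_0 Pool.Agent.Lib.MP_af3a4a_an.P1.CHK.BIG.F0.t23_0 (by decide) (by decide))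

theorem F26 : KPr 26 240 280 :=
  KPr.step (Or.inl F23) (by norm_num)
    (data_sound Pool.Agent.Lib.MP_af3a4a_an.P1.CHK.BIG.F0.n26_0 Pool.Agent.Lib.MP_af3a4a_an.P1.CHK.BIG.F0.t26_0 (by decide) (by decide))

theorem F27 : KPr 27 240 280 :=
  KPr.step (Or.inl F26) (by norm_num)
    (data_sound Pool.Agent.Lib.MP_af3a4a_an.P1.CHK.BIG.F0.n27_0 Pool.Agent.Lib.MP_af3a4a_an.P1.CHK.BIG.F0.t27_0 (by decide) (by decide))

theorem F28 : KPr 28 240 280 :=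
  KPr.step (Or.inl F27) (by norm_num)
    (data_sound Pool.Agent.Lib.MP_af3a4a_an.P1.CHK.BIG.F0.n28_0 Pool.Agent.Lib.MP_af3a4a_an.P1.CHK.BIG.F0.t28_0 (by decide) (by decide))

theorem F29 : KPr 29 240 280 :=
  KPr.step (Or.inl F28) (by norm_num)
    (data_sound Pool.Agent.Lib.MP_af3a4a_an.P1.CHK.BIG.F0.n29_0 Pool.Agent.Lib.MP_af3a4a_an.P1.CHK.BIG.F0.t29_0 (by decide) (by decide))

theorem F30 : KPr 30 240 280 :=
  KPr.step (Or.inl F29) (by norm_num)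
    (data_sound Pool.Agent.Lib.MP_af3a4a_an.P1.CHK.BIG.F0.n30_0 Pool.Agent.Lib.MP_af3a4a_an.P1.CHK.BIG.F0.t30_0 (by decide) (by decide))

theorem F31 : KPr 31 240 280 :=
  KPr.step (Or.inl F30) (by norm_num)
    (data_sound Pool.Agent.Lib.MP_af3a4a_an.P1.CHK.BIG.F0.n31_0 Pool.Agent.Lib.MP_af3a4a_an.P1.CHK.BIG.F0.t31_0 (by decide) (by decide))

theorem F33 : KPr 33 240 280 :=
  KPr.step (Or.inl F31) (by norm_num)
    (data_sound Pool.Agent.Lib.MP_af3a4a_an.P1.CHK.BIG.F0.n33_0 Pool.Agent.Lib.MP_af3a4a_an.P1.CHK.BIG.F0.t33_0 (by decide) (by decide))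

theorem F35 : KPr 35 240 280 :=
  KPr.step (Or.inl F33) (by norm_num)
    (data_sound Pool.Agent.Lib.MP_af3a4a_an.P1.CHK.BIG.F0.n35_0 Pool.Agent.Lib.MP_af3a4a_an.P1.CHK.BIG.F0.t35_0 (by decide) (by decide))

theorem F38 : KPr 38 240 280 :=
  KPr.step (Or.inl F35) (by norm_num)
    (data_sound Pool.Agent.Lib.MP_af3a4a_an.P1.CHK.BIG.F0.n38_0 Pool.Agent.Lib.MP_af3a4a_an.P1.CHK.BIG.F0.t38_0 (by decide) (by decide))

theorem F42 : KPr 42 240 280 :=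
  KPr.step (Or.inl F38) (by norm_num)
    (data_sound Pool.Agent.Lib.MP_af3a4a_an.P1.CHK.BIG.F0.n42_0 Pool.Agent.Lib.MP_af3a4a_an.P1.CHK.BIG.F0.t42_0 (by decide) (by decide))

theorem F46 : KPr 46 240 280 :=
  KPr.step (Or.inl F42) (by norm_num)
    (data_sound Pool.Agent.Lib.MP_af3a4a_an.P1.CHK.BIG.F0.n46_0 Pool.Agent.Lib.MP_af3a4a_an.P1.CHK.BIG.F0.t46_0 (by decide) (by decide))

theorem F50 : KPr 50 240 280 :=
  KPr.step (Or.inl F46) (by norm_num)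
    (data_sound Pool.Agent.Lib.MP_af3a4a_an.P1.CHK.BIG.F0.n50_0 Pool.Agent.Lib.MP_af3a4a_an.P1.CHK.BIG.F0.t50_0 (by decide) (by decide))

theorem F54 : KPr 54 240 280 :=
  KPr.step (Or.inl F50) (by norm_num)
    (data_sound Pool.Agent.Lib.MP_af3a4a_an.P1.CHK.BIG.F0.n54_0 Pool.Agent.Lib.MP_af3a4a_an.P1.CHK.BIG.F0.t54_0 (by decide) (by decide))

theorem F60 : KPr 60 240 280 :=
  KPr.step (Or.inl F54) (by norm_num)
    (data_sound Pool.Agent.Lib.MP_af3a4a_an.P1.CHK.BIG.F0.n60_0 Pool.Agent.Lib.MP_af3a4a_an.P1.CHK.BIG.F0.t60_0 (by decide) (by decide))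

theorem F68 : KPr 68 240 280 :=
  KPr.step (Or.inl F60) (by norm_num)
    (data_sound Pool.Agent.Lib.MP_af3a4a_an.P1.CHK.BIG.F1.n68_0 Pool.Agent.Lib.MP_af3a4a_an.P1.CHK.BIG.F1.t68_0 (by decide) (by decide))

theorem F76 : KPr 76 240 280 :=
  KPr.step (Or.inl F68) (by norm_num)
    (data_sound Pool.Agent.Lib.MP_af3a4a_an.P1.CHK.BIG.F1.n76_0 Pool.Agent.Lib.MP_af3a4a_an.P1.CHK.BIG.F1.t76_0 (by decide) (by decide))

theorem F84 : KPr 84 240 280 :=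
  KPr.step (Or.inl F76) (by norm_num)
    (data_sound Pool.Agent.Lib.MP_af3a4a_an.P1.CHK.BIG.F1.n84_0 Pool.Agent.Lib.MP_af3a4a_an.P1.CHK.BIG.F1.t84_0 (by decide) (by decide))

theorem F96 : KPr 96 240 280 :=
  KPr.step (Or.inl F84) (by norm_num)
    (data_sound Pool.Agent.Lib.MP_af3a4a_an.P1.CHK.BIG.F1.n96_0 Pool.Agent.Lib.MP_af3a4a_an.P1.CHK.BIG.F1.t96_0 (by decide) (by decide))

theorem F108 : KPr 108 240 280 :=
  KPr.step (Or.inl F96) (by norm_num)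
    (data_sound Pool.Agent.Lib.MP_af3a4a_an.P1.CHK.BIG.F1.n108_0 Pool.Agent.Lib.MP_af3a4a_an.P1.CHK.BIG.F1.t108_0 (by decide) (by decide))

theorem F124 : KPr 124 240 280 :=
  KPr.step (Or.inl F108) (by norm_num)
    (data_sound Pool.Agent.Lib.MP_af3a4a_an.P1.CHK.BIG.F1.n124_0 Pool.Agent.Lib.MP_af3a4a_an.P1.CHK.BIG.F1.t124_0 (by decide) (by decide))

theorem F144 : KPr 144 240 280 :=
  KPr.step (Or.inl F124) (by norm_num)
    (data_sound Pool.Agent.Lib.MP_af3a4a_an.P1.CHK.BIG.F1.n144_0 Pool.Agent.Lib.MP_af3a4a_an.P1.CHK.BIG.F1.t144_0 (by decide) (by decide))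

theorem F160 : KPr 160 240 280 :=
  KPr.step (Or.inl F144) (by norm_num)
    (data_sound Pool.Agent.Lib.MP_af3a4a_an.P1.CHK.BIG.F1.n160_0 Pool.Agent.Lib.MP_af3a4a_an.P1.CHK.BIG.F1.t160_0 (by decide) (by decide))

theorem F176 : KPr 176 240 280 :=
  KPr.step (Or.inl F160) (by norm_num)
    (data_sound Pool.Agent.Lib.MP_af3a4a_an.P1.CHK.BIG.F1.n176_0 Pool.Agent.Lib.MP_af3a4a_an.P1.CHK.BIG.F1.t176_0 (by decide) (by decide))

theorem F208 : KPr 208 240 280 :=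
  KPr.step (Or.inl F176) (by norm_num)
    (data_sound Pool.Agent.Lib.MP_af3a4a_an.P1.CHK.BIG.F1.n208_0 Pool.Agent.Lib.MP_af3a4a_an.P1.CHK.BIG.F1.t208_0 (by decide) (by decide))

theorem F240 : KPr 240 240 280 :=
  KPr.step (Or.inl F208) (by norm_num)
    (data_sound Pool.Agent.Lib.MP_af3a4a_an.P1.CHK.BIG.F1.n240_0 Pool.Agent.Lib.MP_af3a4a_an.P1.CHK.BIG.F1.t240_0 (by decide) (by decide))

theorem F272 : KPr 272 240 280 :=
  KPr.step (Or.inl F240) (by norm_num)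
    (data_sound Pool.Agent.Lib.MP_af3a4a_an.P1.CHK.BIG.F1.n272_0 Pool.Agent.Lib.MP_af3a4a_an.P1.CHK.BIG.F1.t272_0 (by decide) (by decide))

theorem F288 : KPr 288 240 280 :=
  KPr.step (Or.inl F272) (by norm_num)
    (data_sound Pool.Agent.Lib.MP_af3a4a_an.P1.CHK.BIG.F1.n288_0 Pool.Agent.Lib.MP_af3a4a_an.P1.CHK.BIG.F1.t288_0 (by decide) (by decide))

theorem F320 : KPr 320 240 280 :=
  KPr.step (Or.inl F288) (by norm_num)
    (data_sound Pool.Agent.Lib.MP_af3a4a_an.P1.CHK.BIG.F1.n320_0 Pool.Agent.Lib.MP_af3a4a_an.P1.CHK.BIG.F1.t320_0 (by decide) (by decide))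

theorem F352 : KPr 352 240 280 :=
  KPr.step (Or.inl F320) (by norm_num)
    (data_sound Pool.Agent.Lib.MP_af3a4a_an.P1.CHK.BIG.F1.n352_0 Pool.Agent.Lib.MP_af3a4a_an.P1.CHK.BIG.F1.t352_0 (by decide) (by decide))

theorem F384 : KPr 384 240 280 :=
  KPr.step (Or.inl F352) (by norm_num)
    (data_sound Pool.Agent.Lib.MP_af3a4a_an.P1.CHK.BIG.F1.n384_0 Pool.Agent.Lib.MP_af3a4a_an.P1.CHK.BIG.F1.t384_0 (by decide) (by decide))

/-- the range F -/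
theorem rangeF : KPr 384 240 280 := F384

end Pool.Agent.Lib.MP_af3a4a_an.P1.CHK.BIG
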