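import Pool.Agent.Lib.MP_af3a4a_an.P1.CHK.BIG.G0
import Pool.Agent.Lib.MP_af3a4a_an.P1.CHK.BIG.G1
import Pool.Agent.Lib.MP_af3a4a_an.P1.H11.Sound

/-!
# BIGR, range G: the chain in `K` (council 2, helper11)
-/

set_option autoImplicit false

namespace Pool.Agent.Lib.MP_af3a4a_an.P1.CHK.BIG

open Pool.Agent.Lib.MP_af3a4a_an.P1.H11

theorem G23 : KPr 23 280 320 :=
  KPr.step (Or.inr rfl) (by norm_num)
    (data_sound Pool.Agent.Lib.MP_af3a4a_an.P1.CHK.BIG.G0.n23_0 Pool.Agent.Lib.MP_af3a4a_an.P1.CHK.BIG.G0.t23_0 (by decide) (by decide))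

theorem G27 : KPr 27 280 320 :=
  KPr.step (Or.inl G23) (by norm_num)
    (data_sound Pool.Agent.Lib.MP_af3a4a_an.P1.CHK.BIG.G0.n27_0 Pool.Agent.Lib.MP_af3a4a_an.P1.CHK.BIG.G0.t27_0 (by decide) (by decide))

theorem G30 : KPr 30 280 320 :=
  KPr.step (Or.inl G27) (by norm_num)
    (data_sound Pool.Agent.Lib.MP_af3a4a_an.P1.CHK.BIG.G0.n30_0 Pool.Agent.Lib.MP_af3a4a_an.P1.CHK.BIG.G0.t30_0 (by decide) (by decide))

theorem G32 : KPr 32 280 320 :=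
  KPr.step (Or.inl G30) (by norm_num)
    (data_sound Pool.Agent.Lib.MP_af3a4a_an.P1.CHK.BIG.G0.n32_0 Pool.Agent.Lib.MP_af3a4a_an.P1.CHK.BIG.G0.t32_0 (by decide) (by decide))

theorem G34 : KPr 34 280 320 :=
  KPr.step (Or.inl G32) (by norm_num)
    (data_sound Pool.Agent.Lib.MP_af3a4a_an.P1.CHK.BIG.G0.n34_0 Pool.Agent.Lib.MP_af3a4a_an.P1.CHK.BIG.G0.t34_0 (by decide) (by decide))

theorem G36 : KPr 36 280 320 :=
  KPr.step (Or.inl G34) (by norm_num)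
    (data_sound Pool.Agent.Lib.MP_af3a4a_an.P1.CHK.BIG.G0.n36_0 Pool.Agent.Lib.MP_af3a4a_an.P1.CHK.BIG.G0.t36_0 (by decide) (by decide))

theorem G39 : KPr 39 280 320 :=
  KPr.step (Or.inl G36) (by norm_num)
    (data_sound Pool.Agent.Lib.MP_af3a4a_an.P1.CHK.BIG.G0.n39_0 Pool.Agent.Lib.MP_af3a4a_an.P1.CHK.BIG.G0.t39_0 (by decide) (by decide))

theorem G42 : KPr 42 280 320 :=
  KPr.step (Or.inl G39) (by norm_num)
    (data_sound Pool.Agent.Lib.MP_af3a4a_an.P1.CHK.BIG.G0.n42_0 Pool.Agent.Lib.MP_af3a4a_an.P1.CHK.BIG.G0.t42_0 (by decide) (by decide))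

theorem G46 : KPr 46 280 320 :=
  KPr.step (Or.inl G42) (by norm_num)
    (data_sound Pool.Agent.Lib.MP_af3a4a_an.P1.CHK.BIG.G0.n46_0 Pool.Agent.Lib.MP_af3a4a_an.P1.CHK.BIG.G0.t46_0 (by decide) (by decide))

theorem G50 : KPr 50 280 320 :=
  KPr.step (Or.inl G46) (by norm_num)
    (data_sound Pool.Agent.Lib.MP_af3a4a_an.P1.CHK.BIG.G0.n50_0 Pool.Agent.Lib.MP_af3a4a_an.P1.CHK.BIG.G0.t50_0 (by decide) (by decide))

theorem G56 : KPr 56 280 320 :=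
  KPr.step (Or.inl G50) (by norm_num)
    (data_sound Pool.Agent.Lib.MP_af3a4a_an.P1.CHK.BIG.G0.n56_0 Pool.Agent.Lib.MP_af3a4a_an.P1.CHK.BIG.G0.t56_0 (by decide) (by decide))

theorem G60 : KPr 60 280 320 :=
  KPr.step (Or.inl G56) (by norm_num)
    (data_sound Pool.Agent.Lib.MP_af3a4a_an.P1.CHK.BIG.G0.n60_0 Pool.Agent.Lib.MP_af3a4a_an.P1.CHK.BIG.G0.t60_0 (by decide) (by decide))

theorem G68 : KPr 68 280 320 :=
  KPr.step (Or.inl G60) (by norm_num)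
    (data_sound Pool.Agent.Lib.MP_af3a4a_an.P1.CHK.BIG.G0.n68_0 Pool.Agent.Lib.MP_af3a4a_an.P1.CHK.BIG.G0.t68_0 (by decide) (by decide))

theorem G76 : KPr 76 280 320 :=
  KPr.step (Or.inl G68) (by norm_num)
    (data_sound Pool.Agent.Lib.MP_af3a4a_an.P1.CHK.BIG.G0.n76_0 Pool.Agent.Lib.MP_af3a4a_an.P1.CHK.BIG.G0.t76_0 (by decide) (by decide))

theorem G84 : KPr 84 280 320 :=
  KPr.step (Or.inl G76) (by norm_num)
    (data_sound Pool.Agent.Lib.MP_af3a4a_an.P1.CHK.BIG.G0.n84_0 Pool.Agent.Lib.MP_af3a4a_an.P1.CHK.BIG.G0.t84_0 (by decide) (by decide))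

theorem G92 : KPr 92 280 320 :=
  KPr.step (Or.inl G84) (by norm_num)
    (data_sound Pool.Agent.Lib.MP_af3a4a_an.P1.CHK.BIG.G0.n92_0 Pool.Agent.Lib.MP_af3a4a_an.P1.CHK.BIG.G0.t92_0 (by decide) (by decide))

theorem G104 : KPr 104 280 320 :=
  KPr.step (Or.inl G92) (by norm_num)
    (data_sound Pool.Agent.Lib.MP_af3a4a_an.P1.CHK.BIG.G1.n104_0 Pool.Agent.Lib.MP_af3a4a_an.P1.CHK.BIG.G1.t104_0 (by decide) (by decide))

theorem G116 : KPr 116 280 320 :=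
  KPr.step (Or.inl G104) (by norm_num)
    (data_sound Pool.Agent.Lib.MP_af3a4a_an.P1.CHK.BIG.G1.n116_0 Pool.Agent.Lib.MP_af3a4a_an.P1.CHK.BIG.G1.t116_0 (by decide) (by decide))

theorem G128 : KPr 128 280 320 :=
  KPr.step (Or.inl G116) (by norm_num)
    (data_sound Pool.Agent.Lib.MP_af3a4a_an.P1.CHK.BIG.G1.n128_0 Pool.Agent.Lib.MP_af3a4a_an.P1.CHK.BIG.G1.t128_0 (by decide) (by decide))

theorem G144 : KPr 144 280 320 :=
  KPr.step (Or.inl G128) (by norm_num)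
    (data_sound Pool.Agent.Lib.MP_af3a4a_an.P1.CHK.BIG.G1.n144_0 Pool.Agent.Lib.MP_af3a4a_an.P1.CHK.BIG.G1.t144_0 (by decide) (by decide))

theorem G160 : KPr 160 280 320 :=
  KPr.step (Or.inl G144) (by norm_num)
    (data_sound Pool.Agent.Lib.MP_af3a4a_an.P1.CHK.BIG.G1.n160_0 Pool.Agent.Lib.MP_af3a4a_an.P1.CHK.BIG.G1.t160_0 (by decide) (by decide))

theorem G176 : KPr 176 280 320 :=
  KPr.step (Or.inl G160) (by norm_num)
    (data_sound Pool.Agent.Lib.MP_af3a4a_an.P1.CHK.BIG.G1.n176_0 Pool.Agent.Lib.MP_af3a4a_an.P1.CHK.BIG.G1.t176_0 (by decide) (by decide))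

theorem G192 : KPr 192 280 320 :=
  KPr.step (Or.inl G176) (by norm_num)
    (data_sound Pool.Agent.Lib.MP_af3a4a_an.P1.CHK.BIG.G1.n192_0 Pool.Agent.Lib.MP_af3a4a_an.P1.CHK.BIG.G1.t192_0 (by decide) (by decide))

theorem G208 : KPr 208 280 320 :=
  KPr.step (Or.inl G192) (by norm_num)
    (data_sound Pool.Agent.Lib.MP_af3a4a_an.P1.CHK.BIG.G1.n208_0 Pool.Agent.Lib.MP_af3a4a_an.P1.CHK.BIG.G1.t208_0 (by decide) (by decide))

theorem G240 : KPr 240 280 320 :=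
  KPr.step (Or.inl G208) (by norm_num)
    (data_sound Pool.Agent.Lib.MP_af3a4a_an.P1.CHK.BIG.G1.n240_0 Pool.Agent.Lib.MP_af3a4a_an.P1.CHK.BIG.G1.t240_0 (by decide) (by decide))

theorem G272 : KPr 272 280 320 :=
  KPr.step (Or.inl G240) (by norm_num)
    (data_sound Pool.Agent.Lib.MP_af3a4a_an.P1.CHK.BIG.G1.n272_0 Pool.Agent.Lib.MP_af3a4a_an.P1.CHK.BIG.G1.t272_0 (by decide) (by decide))

theorem G288 : KPr 288 280 320 :=
  KPr.step (Or.inl G272) (by norm_num)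
    (data_sound Pool.Agent.Lib.MP_af3a4a_an.P1.CHK.BIG.G1.n288_0 Pool.Agent.Lib.MP_af3a4a_an.P1.CHK.BIG.G1.t288_0 (by decide) (by decide))

theorem G320 : KPr 320 280 320 :=
  KPr.step (Or.inl G288) (by norm_num)
    (data_sound Pool.Agent.Lib.MP_af3a4a_an.P1.CHK.BIG.G1.n320_0 Pool.Agent.Lib.MP_af3a4a_an.P1.CHK.BIG.G1.t320_0 (by decide) (by decide))

theorem G352 : KPr 352 280 320 :=
  KPr.step (Or.inl G320) (by norm_num)
    (data_sound Pool.Agent.Lib.MP_af3a4a_an.P1.CHK.BIG.G1.n352_0 Pool.Agent.Lib.MP_af3a4a_an.P1.CHK.BIG.G1.t352_0 (by decide) (by decide))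

theorem G384 : KPr 384 280 320 :=
  KPr.step (Or.inl G352) (by norm_num)
    (data_sound Pool.Agent.Lib.MP_af3a4a_an.P1.CHK.BIG.G1.n384_0 Pool.Agent.Lib.MP_af3a4a_an.P1.CHK.BIG.G1.t384_0 (by decide) (by decide))

/-- the range G -/
theorem rangeG : KPr 384 280 320 := G384

end Pool.Agent.Lib.MP_af3a4a_an.P1.CHK.BIG
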