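import Pool.Agent.Lib.MP_af3a4a_an.P1.CHK.BIG.H0
import Pool.Agent.Lib.MP_af3a4a_an.P1.CHK.BIG.H1
import Pool.Agent.Lib.MP_af3a4a_an.P1.H11.Sound

/-!
# BIGR, range H: the chain in `K` (council 2, helper11)
-/

set_option autoImplicit false

namespace Pool.Agent.Lib.MP_af3a4a_an.P1.CHK.BIG

open Pool.Agent.Lib.MP_af3a4a_an.P1.H11

theorem H23 : KPr 23 320 350 :=
  KPr.step (Or.inr rfl) (by norm_num)
    (data_sound Pool.Agent.Lib.MP_af3a4a_an.P1.CHK.BIG.H0.n23_0 Pool.Agent.Lib.MP_af3a4a_an.P1.CHK.BIG.H0.t23_0 (by decide) (by decide))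

theorem H27 : KPr 27 320 350 :=
  KPr.step (Or.inl H23) (by norm_num)
    (data_sound Pool.Agent.Lib.MP_af3a4a_an.P1.CHK.BIG.H0.n27_0 Pool.Agent.Lib.MP_af3a4a_an.P1.CHK.BIG.H0.t27_0 (by decide) (by decide))

theorem H31 : KPr 31 320 350 :=
  KPr.step (Or.inl H27) (by norm_num)
    (data_sound Pool.Agent.Lib.MP_af3a4a_an.P1.CHK.BIG.H0.n31_0 Pool.Agent.Lib.MP_af3a4a_an.P1.CHK.BIG.H0.t31_0 (by decide) (by decide))

theorem H35 : KPr 35 320 350 :=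
  KPr.step (Or.inl H31) (by norm_num)
    (data_sound Pool.Agent.Lib.MP_af3a4a_an.P1.CHK.BIG.H0.n35_0 Pool.Agent.Lib.MP_af3a4a_an.P1.CHK.BIG.H0.t35_0 (by decide) (by decide))

theorem H38 : KPr 38 320 350 :=
  KPr.step (Or.inl H35) (by norm_num)
    (data_sound Pool.Agent.Lib.MP_af3a4a_an.P1.CHK.BIG.H0.n38_0 Pool.Agent.Lib.MP_af3a4a_an.P1.CHK.BIG.H0.t38_0 (by decide) (by decide))

theorem H40 : KPr 40 320 350 :=
  KPr.step (Or.inl H38) (by norm_num)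
    (data_sound Pool.Agent.Lib.MP_af3a4a_an.P1.CHK.BIG.H0.n40_0 Pool.Agent.Lib.MP_af3a4a_an.P1.CHK.BIG.H0.t40_0 (by decide) (by decide))

theorem H42 : KPr 42 320 350 :=
  KPr.step (Or.inl H40) (by norm_num)
    (data_sound Pool.Agent.Lib.MP_af3a4a_an.P1.CHK.BIG.H0.n42_0 Pool.Agent.Lib.MP_af3a4a_an.P1.CHK.BIG.H0.t42_0 (by decide) (by decide))

theorem H46 : KPr 46 320 350 :=
  KPr.step (Or.inl H42) (by norm_num)
    (data_sound Pool.Agent.Lib.MP_af3a4a_an.P1.CHK.BIG.H0.n46_0 Pool.Agent.Lib.MP_af3a4a_an.P1.CHK.BIG.H0.t46_0 (by decide) (by decide))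

theorem H50 : KPr 50 320 350 :=
  KPr.step (Or.inl H46) (by norm_num)
    (data_sound Pool.Agent.Lib.MP_af3a4a_an.P1.CHK.BIG.H0.n50_0 Pool.Agent.Lib.MP_af3a4a_an.P1.CHK.BIG.H0.t50_0 (by decide) (by decide))

theorem H54 : KPr 54 320 350 :=
  KPr.step (Or.inl H50) (by norm_num)
    (data_sound Pool.Agent.Lib.MP_af3a4a_an.P1.CHK.BIG.H0.n54_0 Pool.Agent.Lib.MP_af3a4a_an.P1.CHK.BIG.H0.t54_0 (by decide) (by decide))

theorem H58 : KPr 58 320 350 :=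
  KPr.step (Or.inl H54) (by norm_num)
    (data_sound Pool.Agent.Lib.MP_af3a4a_an.P1.CHK.BIG.H0.n58_0 Pool.Agent.Lib.MP_af3a4a_an.P1.CHK.BIG.H0.t58_0 (by decide) (by decide))

theorem H64 : KPr 64 320 350 :=
  KPr.step (Or.inl H58) (by norm_num)
    (data_sound Pool.Agent.Lib.MP_af3a4a_an.P1.CHK.BIG.H0.n64_0 Pool.Agent.Lib.MP_af3a4a_an.P1.CHK.BIG.H0.t64_0 (by decide) (by decide))

theorem H72 : KPr 72 320 350 :=
  KPr.step (Or.inl H64) (by norm_num)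
    (data_sound Pool.Agent.Lib.MP_af3a4a_an.P1.CHK.BIG.H0.n72_0 Pool.Agent.Lib.MP_af3a4a_an.P1.CHK.BIG.H0.t72_0 (by decide) (by decide))

theorem H80 : KPr 80 320 350 :=
  KPr.step (Or.inl H72) (by norm_num)
    (data_sound Pool.Agent.Lib.MP_af3a4a_an.P1.CHK.BIG.H0.n80_0 Pool.Agent.Lib.MP_af3a4a_an.P1.CHK.BIG.H0.t80_0 (by decide) (by decide))

theorem H88 : KPr 88 320 350 :=
  KPr.step (Or.inl H80) (by norm_num)
    (data_sound Pool.Agent.Lib.MP_af3a4a_an.P1.CHK.BIG.H0.n88_0 Pool.Agent.Lib.MP_af3a4a_an.P1.CHK.BIG.H0.t88_0 (by decide) (by decide))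

theorem H96 : KPr 96 320 350 :=
  KPr.step (Or.inl H88) (by norm_num)
    (data_sound Pool.Agent.Lib.MP_af3a4a_an.P1.CHK.BIG.H0.n96_0 Pool.Agent.Lib.MP_af3a4a_an.P1.CHK.BIG.H0.t96_0 (by decide) (by decide))

theorem H104 : KPr 104 320 350 :=
  KPr.step (Or.inl H96) (by norm_num)
    (data_sound Pool.Agent.Lib.MP_af3a4a_an.P1.CHK.BIG.H0.n104_0 Pool.Agent.Lib.MP_af3a4a_an.P1.CHK.BIG.H0.t104_0 (by decide) (by decide))

theorem H116 : KPr 116 320 350 :=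
  KPr.step (Or.inl H104) (by norm_num)
    (data_sound Pool.Agent.Lib.MP_af3a4a_an.P1.CHK.BIG.H0.n116_0 Pool.Agent.Lib.MP_af3a4a_an.P1.CHK.BIG.H0.t116_0 (by decide) (by decide))

theorem H128 : KPr 128 320 350 :=
  KPr.step (Or.inl H116) (by norm_num)
    (data_sound Pool.Agent.Lib.MP_af3a4a_an.P1.CHK.BIG.H0.n128_0 Pool.Agent.Lib.MP_af3a4a_an.P1.CHK.BIG.H0.t128_0 (by decide) (by decide))

theorem H144 : KPr 144 320 350 :=
  KPr.step (Or.inl H128) (by norm_num)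
    (data_sound Pool.Agent.Lib.MP_af3a4a_an.P1.CHK.BIG.H1.n144_0 Pool.Agent.Lib.MP_af3a4a_an.P1.CHK.BIG.H1.t144_0 (by decide) (by decide))

theorem H160 : KPr 160 320 350 :=
  KPr.step (Or.inl H144) (by norm_num)
    (data_sound Pool.Agent.Lib.MP_af3a4a_an.P1.CHK.BIG.H1.n160_0 Pool.Agent.Lib.MP_af3a4a_an.P1.CHK.BIG.H1.t160_0 (by decide) (by decide))

theorem H176 : KPr 176 320 350 :=
  KPr.step (Or.inl H160) (by norm_num)
    (data_sound Pool.Agent.Lib.MP_af3a4a_an.P1.CHK.BIG.H1.n176_0 Pool.Agent.Lib.MP_af3a4a_an.P1.CHK.BIG.H1.t176_0 (by decide) (by decide))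

theorem H192 : KPr 192 320 350 :=
  KPr.step (Or.inl H176) (by norm_num)
    (data_sound Pool.Agent.Lib.MP_af3a4a_an.P1.CHK.BIG.H1.n192_0 Pool.Agent.Lib.MP_af3a4a_an.P1.CHK.BIG.H1.t192_0 (by decide) (by decide))

theorem H208 : KPr 208 320 350 :=
  KPr.step (Or.inl H192) (by norm_num)
    (data_sound Pool.Agent.Lib.MP_af3a4a_an.P1.CHK.BIG.H1.n208_0 Pool.Agent.Lib.MP_af3a4a_an.P1.CHK.BIG.H1.t208_0 (by decide) (by decide))

theorem H224 : KPr 224 320 350 :=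
  KPr.step (Or.inl H208) (by norm_num)
    (data_sound Pool.Agent.Lib.MP_af3a4a_an.P1.CHK.BIG.H1.n224_0 Pool.Agent.Lib.MP_af3a4a_an.P1.CHK.BIG.H1.t224_0 (by decide) (by decide))

theorem H256 : KPr 256 320 350 :=
  KPr.step (Or.inl H224) (by norm_num)
    (data_sound Pool.Agent.Lib.MP_af3a4a_an.P1.CHK.BIG.H1.n256_0 Pool.Agent.Lib.MP_af3a4a_an.P1.CHK.BIG.H1.t256_0 (by decide) (by decide))

theorem H288 : KPr 288 320 350 :=
  KPr.step (Or.inl H256) (by norm_num)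
    (data_sound Pool.Agent.Lib.MP_af3a4a_an.P1.CHK.BIG.H1.n288_0 Pool.Agent.Lib.MP_af3a4a_an.P1.CHK.BIG.H1.t288_0 (by decide) (by decide))

theorem H320 : KPr 320 320 350 :=
  KPr.step (Or.inl H288) (by norm_num)
    (data_sound Pool.Agent.Lib.MP_af3a4a_an.P1.CHK.BIG.H1.n320_0 Pool.Agent.Lib.MP_af3a4a_an.P1.CHK.BIG.H1.t320_0 (by decide) (by decide))

theorem H352 : KPr 352 320 350 :=
  KPr.step (Or.inl H320) (by norm_num)
    (data_sound Pool.Agent.Lib.MP_af3a4a_an.P1.CHK.BIG.H1.n352_0 Pool.Agent.Lib.MP_af3a4a_an.P1.CHK.BIG.H1.t352_0 (by decide) (by decide))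

theorem H384 : KPr 384 320 350 :=
  KPr.step (Or.inl H352) (by norm_num)
    (data_sound Pool.Agent.Lib.MP_af3a4a_an.P1.CHK.BIG.H1.n384_0 Pool.Agent.Lib.MP_af3a4a_an.P1.CHK.BIG.H1.t384_0 (by decide) (by decide))

/-- the range H -/
theorem rangeH : KPr 384 320 350 := H384

end Pool.Agent.Lib.MP_af3a4a_an.P1.CHK.BIG
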