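import Pool.Agent.Lib.MP_af3a4a_an.P1.CHK.BIG.I0
import Pool.Agent.Lib.MP_af3a4a_an.P1.CHK.BIG.I1
import Pool.Agent.Lib.MP_af3a4a_an.P1.CHK.BIG.I2
import Pool.Agent.Lib.MP_af3a4a_an.P1.H11.Sound

/-!
# BIGR, range I: the chain in `K` (council 2, helper11)
-/

set_option autoImplicit false

namespace Pool.Agent.Lib.MP_af3a4a_an.P1.CHK.BIG

open Pool.Agent.Lib.MP_af3a4a_an.P1.H11

theorem I23 : KPr 23 350 385 :=
  KPr.step (Or.inr rfl) (by norm_num)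
    (data_sound Pool.Agent.Lib.MP_af3a4a_an.P1.CHK.BIG.I0.n23_0 Pool.Agent.Lib.MP_af3a4a_an.P1.CHK.BIG.I0.t23_0 (by decide) (by decide))

theorem I27 : KPr 27 350 385 :=
  KPr.step (Or.inl I23) (by norm_num)
    (data_sound Pool.Agent.Lib.MP_af3a4a_an.P1.CHK.BIG.I0.n27_0 Pool.Agent.Lib.MP_af3a4a_an.P1.CHK.BIG.I0.t27_0 (by decide) (by decide))

theorem I31 : KPr 31 350 385 :=
  KPr.step (Or.inl I27) (by norm_num)
    (data_sound Pool.Agent.Lib.MP_af3a4a_an.P1.CHK.BIG.I0.n31_0 Pool.Agent.Lib.MP_af3a4a_an.P1.CHK.BIG.I0.t31_0 (by decide) (by decide))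

theorem I35 : KPr 35 350 385 :=
  KPr.step (Or.inl I31) (by norm_num)
    (data_sound Pool.Agent.Lib.MP_af3a4a_an.P1.CHK.BIG.I0.n35_0 Pool.Agent.Lib.MP_af3a4a_an.P1.CHK.BIG.I0.t35_0 (by decide) (by decide))

theorem I39 : KPr 39 350 385 :=
  KPr.step (Or.inl I35) (by norm_num)
    (data_sound Pool.Agent.Lib.MP_af3a4a_an.P1.CHK.BIG.I0.n39_0 Pool.Agent.Lib.MP_af3a4a_an.P1.CHK.BIG.I0.t39_0 (by decide) (by decide))

theorem I42 : KPr 42 350 385 :=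
  KPr.step (Or.inl I39) (by norm_num)
    (data_sound Pool.Agent.Lib.MP_af3a4a_an.P1.CHK.BIG.I0.n42_0 Pool.Agent.Lib.MP_af3a4a_an.P1.CHK.BIG.I0.t42_0 (by decide) (by decide))

theorem I44 : KPr 44 350 385 :=
  KPr.step (Or.inl I42) (by norm_num)
    (data_sound Pool.Agent.Lib.MP_af3a4a_an.P1.CHK.BIG.I0.n44_0 Pool.Agent.Lib.MP_af3a4a_an.P1.CHK.BIG.I0.t44_0 (by decide) (by decide))

theorem I46 : KPr 46 350 385 :=
  KPr.step (Or.inl I44) (by norm_num)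
    (data_sound Pool.Agent.Lib.MP_af3a4a_an.P1.CHK.BIG.I0.n46_0 Pool.Agent.Lib.MP_af3a4a_an.P1.CHK.BIG.I0.t46_0 (by decide) (by decide))

theorem I48 : KPr 48 350 385 :=
  KPr.step (Or.inl I46) (by norm_num)
    (data_sound Pool.Agent.Lib.MP_af3a4a_an.P1.CHK.BIG.I0.n48_0 Pool.Agent.Lib.MP_af3a4a_an.P1.CHK.BIG.I0.t48_0 (by decide) (by decide))

theorem I50 : KPr 50 350 385 :=
  KPr.step (Or.inl I48) (by norm_num)
    (data_sound Pool.Agent.Lib.MP_af3a4a_an.P1.CHK.BIG.I0.n50_0 Pool.Agent.Lib.MP_af3a4a_an.P1.CHK.BIG.I0.t50_0 (by decide) (by decide))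

theorem I52 : KPr 52 350 385 :=
  KPr.step (Or.inl I50) (by norm_num)
    (data_sound Pool.Agent.Lib.MP_af3a4a_an.P1.CHK.BIG.I0.n52_0 Pool.Agent.Lib.MP_af3a4a_an.P1.CHK.BIG.I0.t52_0 (by decide) (by decide))

theorem I56 : KPr 56 350 385 :=
  KPr.step (Or.inl I52) (by norm_num)
    (data_sound Pool.Agent.Lib.MP_af3a4a_an.P1.CHK.BIG.I0.n56_0 Pool.Agent.Lib.MP_af3a4a_an.P1.CHK.BIG.I0.t56_0 (by decide) (by decide))

theorem I60 : KPr 60 350 385 :=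
  KPr.step (Or.inl I56) (by norm_num)
    (data_sound Pool.Agent.Lib.MP_af3a4a_an.P1.CHK.BIG.I0.n60_0 Pool.Agent.Lib.MP_af3a4a_an.P1.CHK.BIG.I0.t60_0 (by decide) (by decide))

theorem I64 : KPr 64 350 385 :=
  KPr.step (Or.inl I60) (by norm_num)
    (data_sound Pool.Agent.Lib.MP_af3a4a_an.P1.CHK.BIG.I0.n64_0 Pool.Agent.Lib.MP_af3a4a_an.P1.CHK.BIG.I0.t64_0 (by decide) (by decide))

theorem I68 : KPr 68 350 385 :=
  KPr.step (Or.inl I64) (by norm_num)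
    (data_sound Pool.Agent.Lib.MP_af3a4a_an.P1.CHK.BIG.I0.n68_0 Pool.Agent.Lib.MP_af3a4a_an.P1.CHK.BIG.I0.t68_0 (by decide) (by decide))

theorem I72 : KPr 72 350 385 :=
  KPr.step (Or.inl I68) (by norm_num)
    (data_sound Pool.Agent.Lib.MP_af3a4a_an.P1.CHK.BIG.I0.n72_0 Pool.Agent.Lib.MP_af3a4a_an.P1.CHK.BIG.I0.t72_0 (by decide) (by decide))

theorem I76 : KPr 76 350 385 :=
  KPr.step (Or.inl I72) (by norm_num)
    (data_sound Pool.Agent.Lib.MP_af3a4a_an.P1.CHK.BIG.I0.n76_0 Pool.Agent.Lib.MP_af3a4a_an.P1.CHK.BIG.I0.t76_0 (by decide) (by decide))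

theorem I84 : KPr 84 350 385 :=
  KPr.step (Or.inl I76) (by norm_num)
    (data_sound Pool.Agent.Lib.MP_af3a4a_an.P1.CHK.BIG.I1.n84_0 Pool.Agent.Lib.MP_af3a4a_an.P1.CHK.BIG.I1.t84_0 (by decide) (by decide))

theorem I92 : KPr 92 350 385 :=
  KPr.step (Or.inl I84) (by norm_num)
    (data_sound Pool.Agent.Lib.MP_af3a4a_an.P1.CHK.BIG.I1.n92_0 Pool.Agent.Lib.MP_af3a4a_an.P1.CHK.BIG.I1.t92_0 (by decide) (by decide))

theorem I100 : KPr 100 350 385 :=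
  KPr.step (Or.inl I92) (by norm_num)
    (data_sound Pool.Agent.Lib.MP_af3a4a_an.P1.CHK.BIG.I1.n100_0 Pool.Agent.Lib.MP_af3a4a_an.P1.CHK.BIG.I1.t100_0 (by decide) (by decide))

theorem I108 : KPr 108 350 385 :=
  KPr.step (Or.inl I100) (by norm_num)
    (data_sound Pool.Agent.Lib.MP_af3a4a_an.P1.CHK.BIG.I1.n108_0 Pool.Agent.Lib.MP_af3a4a_an.P1.CHK.BIG.I1.t108_0 (by decide) (by decide))

theorem I116 : KPr 116 350 385 :=
  KPr.step (Or.inl I108) (by norm_num)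
    (data_sound Pool.Agent.Lib.MP_af3a4a_an.P1.CHK.BIG.I1.n116_0 Pool.Agent.Lib.MP_af3a4a_an.P1.CHK.BIG.I1.t116_0 (by decide) (by decide))

theorem I128 : KPr 128 350 385 :=
  KPr.step (Or.inl I116) (by norm_num)
    (data_sound Pool.Agent.Lib.MP_af3a4a_an.P1.CHK.BIG.I1.n128_0 Pool.Agent.Lib.MP_af3a4a_an.P1.CHK.BIG.I1.t128_0 (by decide) (by decide))

theorem I144 : KPr 144 350 385 :=
  KPr.step (Or.inl I128) (by norm_num)
    (data_sound Pool.Agent.Lib.MP_af3a4a_an.P1.CHK.BIG.I1.n144_0 Pool.Agent.Lib.MP_af3a4a_an.P1.CHK.BIG.I1.t144_0 (by decide) (by decide))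

theorem I160 : KPr 160 350 385 :=
  KPr.step (Or.inl I144) (by norm_num)
    (data_sound Pool.Agent.Lib.MP_af3a4a_an.P1.CHK.BIG.I1.n160_0 Pool.Agent.Lib.MP_af3a4a_an.P1.CHK.BIG.I1.t160_0 (by decide) (by decide))

theorem I176 : KPr 176 350 385 :=
  KPr.step (Or.inl I160) (by norm_num)
    (data_sound Pool.Agent.Lib.MP_af3a4a_an.P1.CHK.BIG.I1.n176_0 Pool.Agent.Lib.MP_af3a4a_an.P1.CHK.BIG.I1.t176_0 (by decide) (by decide))

theorem I192 : KPr 192 350 385 :=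
  KPr.step (Or.inl I176) (by norm_num)
    (data_sound Pool.Agent.Lib.MP_af3a4a_an.P1.CHK.BIG.I1.n192_0 Pool.Agent.Lib.MP_af3a4a_an.P1.CHK.BIG.I1.t192_0 (by decide) (by decide))

theorem I208 : KPr 208 350 385 :=
  KPr.step (Or.inl I192) (by norm_num)
    (data_sound Pool.Agent.Lib.MP_af3a4a_an.P1.CHK.BIG.I1.n208_0 Pool.Agent.Lib.MP_af3a4a_an.P1.CHK.BIG.I1.t208_0 (by decide) (by decide))

theorem I224 : KPr 224 350 385 :=
  KPr.step (Or.inl I208) (by norm_num)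
    (data_sound Pool.Agent.Lib.MP_af3a4a_an.P1.CHK.BIG.I1.n224_0 Pool.Agent.Lib.MP_af3a4a_an.P1.CHK.BIG.I1.t224_0 (by decide) (by decide))

theorem I240 : KPr 240 350 385 :=
  KPr.step (Or.inl I224) (by norm_num)
    (data_sound Pool.Agent.Lib.MP_af3a4a_an.P1.CHK.BIG.I1.n240_0 Pool.Agent.Lib.MP_af3a4a_an.P1.CHK.BIG.I1.t240_0 (by decide) (by decide))

theorem I256 : KPr 256 350 385 :=
  KPr.step (Or.inl I240) (by norm_num)
    (data_sound Pool.Agent.Lib.MP_af3a4a_an.P1.CHK.BIG.I1.n256_0 Pool.Agent.Lib.MP_af3a4a_an.P1.CHK.BIG.I1.t256_0 (by decide) (by decide))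

theorem I288 : KPr 288 350 385 :=
  KPr.step (Or.inl I256) (by norm_num)
    (data_sound Pool.Agent.Lib.MP_af3a4a_an.P1.CHK.BIG.I2.n288_0 Pool.Agent.Lib.MP_af3a4a_an.P1.CHK.BIG.I2.t288_0 (by decide) (by decide))

theorem I320 : KPr 320 350 385 :=
  KPr.step (Or.inl I288) (by norm_num)
    (data_sound Pool.Agent.Lib.MP_af3a4a_an.P1.CHK.BIG.I2.n320_0 Pool.Agent.Lib.MP_af3a4a_an.P1.CHK.BIG.I2.t320_0 (by decide) (by decide))

theorem I352 : KPr 352 350 385 :=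
  KPr.step (Or.inl I320) (by norm_num)
    (data_sound Pool.Agent.Lib.MP_af3a4a_an.P1.CHK.BIG.I2.n352_0 Pool.Agent.Lib.MP_af3a4a_an.P1.CHK.BIG.I2.t352_0 (by decide) (by decide))

theorem I384 : KPr 384 350 385 :=
  KPr.step (Or.inl I352) (by norm_num)
    (data_sound Pool.Agent.Lib.MP_af3a4a_an.P1.CHK.BIG.I2.n384_0 Pool.Agent.Lib.MP_af3a4a_an.P1.CHK.BIG.I2.t384_0 (by decide) (by decide))

/-- the range I -/
theorem rangeI : KPr 384 350 385 := I384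

end Pool.Agent.Lib.MP_af3a4a_an.P1.CHK.BIG
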