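import Pool.Agent.Lib.MP_af3a4a_an.P1.CHK.BIG.J0
import Pool.Agent.Lib.MP_af3a4a_an.P1.CHK.BIG.J1
import Pool.Agent.Lib.MP_af3a4a_an.P1.CHK.BIG.J2
import Pool.Agent.Lib.MP_af3a4a_an.P1.H11.Sound

/-!
# BIGR, range J: the chain in `K` (council 2, helper11)
-/

set_option autoImplicit false

namespace Pool.Agent.Lib.MP_af3a4a_an.P1.CHK.BIG

open Pool.Agent.Lib.MP_af3a4a_an.P1.H11

theorem J22 : KPr 22 385 404 :=
  KPr.step (Or.inr rfl) (by norm_num)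
    (data_sound Pool.Agent.Lib.MP_af3a4a_an.P1.CHK.BIG.J0.n22_0 Pool.Agent.Lib.MP_af3a4a_an.P1.CHK.BIG.J0.t22_0 (by decide) (by decide))

theorem J26 : KPr 26 385 404 :=
  KPr.step (Or.inl J22) (by norm_num)
    (data_sound Pool.Agent.Lib.MP_af3a4a_an.P1.CHK.BIG.J0.n26_0 Pool.Agent.Lib.MP_af3a4a_an.P1.CHK.BIG.J0.t26_0 (by decide) (by decide))

theorem J30 : KPr 30 385 404 :=
  KPr.step (Or.inl J26) (by norm_num)
    (data_sound Pool.Agent.Lib.MP_af3a4a_an.P1.CHK.BIG.J0.n30_0 Pool.Agent.Lib.MP_af3a4a_an.P1.CHK.BIG.J0.t30_0 (by decide) (by decide))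

theorem J34 : KPr 34 385 404 :=
  KPr.step (Or.inl J30) (by norm_num)
    (data_sound Pool.Agent.Lib.MP_af3a4a_an.P1.CHK.BIG.J0.n34_0 Pool.Agent.Lib.MP_af3a4a_an.P1.CHK.BIG.J0.t34_0 (by decide) (by decide))

theorem J40 : KPr 40 385 404 :=
  KPr.step (Or.inl J34) (by norm_num)
    (data_sound Pool.Agent.Lib.MP_af3a4a_an.P1.CHK.BIG.J0.n40_0 Pool.Agent.Lib.MP_af3a4a_an.P1.CHK.BIG.J0.t40_0 (by decide) (by decide))

theorem J44 : KPr 44 385 404 :=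
  KPr.step (Or.inl J40) (by norm_num)
    (data_sound Pool.Agent.Lib.MP_af3a4a_an.P1.CHK.BIG.J0.n44_0 Pool.Agent.Lib.MP_af3a4a_an.P1.CHK.BIG.J0.t44_0 (by decide) (by decide))

theorem J46 : KPr 46 385 404 :=
  KPr.step (Or.inl J44) (by norm_num)
    (data_sound Pool.Agent.Lib.MP_af3a4a_an.P1.CHK.BIG.J0.n46_0 Pool.Agent.Lib.MP_af3a4a_an.P1.CHK.BIG.J0.t46_0 (by decide) (by decide))

theorem J48 : KPr 48 385 404 :=
  KPr.step (Or.inl J46) (by norm_num)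
    (data_sound Pool.Agent.Lib.MP_af3a4a_an.P1.CHK.BIG.J0.n48_0 Pool.Agent.Lib.MP_af3a4a_an.P1.CHK.BIG.J0.t48_0 (by decide) (by decide))

theorem J50 : KPr 50 385 404 :=
  KPr.step (Or.inl J48) (by norm_num)
    (data_sound Pool.Agent.Lib.MP_af3a4a_an.P1.CHK.BIG.J0.n50_0 Pool.Agent.Lib.MP_af3a4a_an.P1.CHK.BIG.J0.t50_0 (by decide) (by decide))

theorem J52 : KPr 52 385 404 :=
  KPr.step (Or.inl J50) (by norm_num)
    (data_sound Pool.Agent.Lib.MP_af3a4a_an.P1.CHK.BIG.J0.n52_0 Pool.Agent.Lib.MP_af3a4a_an.P1.CHK.BIG.J0.t52_0 (by decide) (by decide))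

theorem J54 : KPr 54 385 404 :=
  KPr.step (Or.inl J52) (by norm_num)
    (data_sound Pool.Agent.Lib.MP_af3a4a_an.P1.CHK.BIG.J0.n54_0 Pool.Agent.Lib.MP_af3a4a_an.P1.CHK.BIG.J0.t54_0 (by decide) (by decide))

theorem J56 : KPr 56 385 404 :=
  KPr.step (Or.inl J54) (by norm_num)
    (data_sound Pool.Agent.Lib.MP_af3a4a_an.P1.CHK.BIG.J0.n56_0 Pool.Agent.Lib.MP_af3a4a_an.P1.CHK.BIG.J0.t56_0 (by decide) (by decide))

theorem J58 : KPr 58 385 404 :=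
  KPr.step (Or.inl J56) (by norm_num)
    (data_sound Pool.Agent.Lib.MP_af3a4a_an.P1.CHK.BIG.J0.n58_0 Pool.Agent.Lib.MP_af3a4a_an.P1.CHK.BIG.J0.t58_0 (by decide) (by decide))

theorem J60 : KPr 60 385 404 :=
  KPr.step (Or.inl J58) (by norm_num)
    (data_sound Pool.Agent.Lib.MP_af3a4a_an.P1.CHK.BIG.J0.n60_0 Pool.Agent.Lib.MP_af3a4a_an.P1.CHK.BIG.J0.t60_0 (by decide) (by decide))

theorem J62 : KPr 62 385 404 :=
  KPr.step (Or.inl J60) (by norm_num)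
    (data_sound Pool.Agent.Lib.MP_af3a4a_an.P1.CHK.BIG.J0.n62_0 Pool.Agent.Lib.MP_af3a4a_an.P1.CHK.BIG.J0.t62_0 (by decide) (by decide))

theorem J64 : KPr 64 385 404 :=
  KPr.step (Or.inl J62) (by norm_num)
    (data_sound Pool.Agent.Lib.MP_af3a4a_an.P1.CHK.BIG.J0.n64_0 Pool.Agent.Lib.MP_af3a4a_an.P1.CHK.BIG.J0.t64_0 (by decide) (by decide))

theorem J68 : KPr 68 385 404 :=
  KPr.step (Or.inl J64) (by norm_num)
    (data_sound Pool.Agent.Lib.MP_af3a4a_an.P1.CHK.BIG.J0.n68_0 Pool.Agent.Lib.MP_af3a4a_an.P1.CHK.BIG.J0.t68_0 (by decide) (by decide))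

theorem J72 : KPr 72 385 404 :=
  KPr.step (Or.inl J68) (by norm_num)
    (data_sound Pool.Agent.Lib.MP_af3a4a_an.P1.CHK.BIG.J0.n72_0 Pool.Agent.Lib.MP_af3a4a_an.P1.CHK.BIG.J0.t72_0 (by decide) (by decide))

theorem J76 : KPr 76 385 404 :=
  KPr.step (Or.inl J72) (by norm_num)
    (data_sound Pool.Agent.Lib.MP_af3a4a_an.P1.CHK.BIG.J0.n76_0 Pool.Agent.Lib.MP_af3a4a_an.P1.CHK.BIG.J0.t76_0 (by decide) (by decide))

theorem J80 : KPr 80 385 404 :=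
  KPr.step (Or.inl J76) (by norm_num)
    (data_sound Pool.Agent.Lib.MP_af3a4a_an.P1.CHK.BIG.J1.n80_0 Pool.Agent.Lib.MP_af3a4a_an.P1.CHK.BIG.J1.t80_0 (by decide) (by decide))

theorem J84 : KPr 84 385 404 :=
  KPr.step (Or.inl J80) (by norm_num)
    (data_sound Pool.Agent.Lib.MP_af3a4a_an.P1.CHK.BIG.J1.n84_0 Pool.Agent.Lib.MP_af3a4a_an.P1.CHK.BIG.J1.t84_0 (by decide) (by decide))

theorem J88 : KPr 88 385 404 :=
  KPr.step (Or.inl J84) (by norm_num)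
    (data_sound Pool.Agent.Lib.MP_af3a4a_an.P1.CHK.BIG.J1.n88_0 Pool.Agent.Lib.MP_af3a4a_an.P1.CHK.BIG.J1.t88_0 (by decide) (by decide))

theorem J92 : KPr 92 385 404 :=
  KPr.step (Or.inl J88) (by norm_num)
    (data_sound Pool.Agent.Lib.MP_af3a4a_an.P1.CHK.BIG.J1.n92_0 Pool.Agent.Lib.MP_af3a4a_an.P1.CHK.BIG.J1.t92_0 (by decide) (by decide))

theorem J100 : KPr 100 385 404 :=
  KPr.step (Or.inl J92) (by norm_num)
    (data_sound Pool.Agent.Lib.MP_af3a4a_an.P1.CHK.BIG.J1.n100_0 Pool.Agent.Lib.MP_af3a4a_an.P1.CHK.BIG.J1.t100_0 (by decide) (by decide))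

theorem J108 : KPr 108 385 404 :=
  KPr.step (Or.inl J100) (by norm_num)
    (data_sound Pool.Agent.Lib.MP_af3a4a_an.P1.CHK.BIG.J1.n108_0 Pool.Agent.Lib.MP_af3a4a_an.P1.CHK.BIG.J1.t108_0 (by decide) (by decide))

theorem J116 : KPr 116 385 404 :=
  KPr.step (Or.inl J108) (by norm_num)
    (data_sound Pool.Agent.Lib.MP_af3a4a_an.P1.CHK.BIG.J1.n116_0 Pool.Agent.Lib.MP_af3a4a_an.P1.CHK.BIG.J1.t116_0 (by decide) (by decide))

theorem J128 : KPr 128 385 404 :=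
  KPr.step (Or.inl J116) (by norm_num)
    (data_sound Pool.Agent.Lib.MP_af3a4a_an.P1.CHK.BIG.J1.n128_0 Pool.Agent.Lib.MP_af3a4a_an.P1.CHK.BIG.J1.t128_0 (by decide) (by decide))

theorem J144 : KPr 144 385 404 :=
  KPr.step (Or.inl J128) (by norm_num)
    (data_sound Pool.Agent.Lib.MP_af3a4a_an.P1.CHK.BIG.J1.n144_0 Pool.Agent.Lib.MP_af3a4a_an.P1.CHK.BIG.J1.t144_0 (by decide) (by decide))

theorem J160 : KPr 160 385 404 :=
  KPr.step (Or.inl J144) (by norm_num)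
    (data_sound Pool.Agent.Lib.MP_af3a4a_an.P1.CHK.BIG.J1.n160_0 Pool.Agent.Lib.MP_af3a4a_an.P1.CHK.BIG.J1.t160_0 (by decide) (by decide))

theorem J176 : KPr 176 385 404 :=
  KPr.step (Or.inl J160) (by norm_num)
    (data_sound Pool.Agent.Lib.MP_af3a4a_an.P1.CHK.BIG.J1.n176_0 Pool.Agent.Lib.MP_af3a4a_an.P1.CHK.BIG.J1.t176_0 (by decide) (by decide))

theorem J192 : KPr 192 385 404 :=
  KPr.step (Or.inl J176) (by norm_num)
    (data_sound Pool.Agent.Lib.MP_af3a4a_an.P1.CHK.BIG.J1.n192_0 Pool.Agent.Lib.MP_af3a4a_an.P1.CHK.BIG.J1.t192_0 (by decide) (by decide))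

theorem J208 : KPr 208 385 404 :=
  KPr.step (Or.inl J192) (by norm_num)
    (data_sound Pool.Agent.Lib.MP_af3a4a_an.P1.CHK.BIG.J1.n208_0 Pool.Agent.Lib.MP_af3a4a_an.P1.CHK.BIG.J1.t208_0 (by decide) (by decide))

theorem J224 : KPr 224 385 404 :=
  KPr.step (Or.inl J208) (by norm_num)
    (data_sound Pool.Agent.Lib.MP_af3a4a_an.P1.CHK.BIG.J1.n224_0 Pool.Agent.Lib.MP_af3a4a_an.P1.CHK.BIG.J1.t224_0 (by decide) (by decide))

theorem J240 : KPr 240 385 404 :=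
  KPr.step (Or.inl J224) (by norm_num)
    (data_sound Pool.Agent.Lib.MP_af3a4a_an.P1.CHK.BIG.J1.n240_0 Pool.Agent.Lib.MP_af3a4a_an.P1.CHK.BIG.J1.t240_0 (by decide) (by decide))

theorem J256 : KPr 256 385 404 :=
  KPr.step (Or.inl J240) (by norm_num)
    (data_sound Pool.Agent.Lib.MP_af3a4a_an.P1.CHK.BIG.J1.n256_0 Pool.Agent.Lib.MP_af3a4a_an.P1.CHK.BIG.J1.t256_0 (by decide) (by decide))

theorem J272 : KPr 272 385 404 :=
  KPr.step (Or.inl J256) (by norm_num)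
    (data_sound Pool.Agent.Lib.MP_af3a4a_an.P1.CHK.BIG.J2.n272_0 Pool.Agent.Lib.MP_af3a4a_an.P1.CHK.BIG.J2.t272_0 (by decide) (by decide))

theorem J304 : KPr 304 385 404 :=
  KPr.step (Or.inl J272) (by norm_num)
    (data_sound Pool.Agent.Lib.MP_af3a4a_an.P1.CHK.BIG.J2.n304_0 Pool.Agent.Lib.MP_af3a4a_an.P1.CHK.BIG.J2.t304_0 (by decide) (by decide))

theorem J320 : KPr 320 385 404 :=
  KPr.step (Or.inl J304) (by norm_num)
    (data_sound Pool.Agent.Lib.MP_af3a4a_an.P1.CHK.BIG.J2.n320_0 Pool.Agent.Lib.MP_af3a4a_an.P1.CHK.BIG.J2.t320_0 (by decide) (by decide))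

theorem J352 : KPr 352 385 404 :=
  KPr.step (Or.inl J320) (by norm_num)
    (data_sound Pool.Agent.Lib.MP_af3a4a_an.P1.CHK.BIG.J2.n352_0 Pool.Agent.Lib.MP_af3a4a_an.P1.CHK.BIG.J2.t352_0 (by decide) (by decide))

theorem J384 : KPr 384 385 404 :=
  KPr.step (Or.inl J352) (by norm_num)
    (data_sound Pool.Agent.Lib.MP_af3a4a_an.P1.CHK.BIG.J2.n384_0 Pool.Agent.Lib.MP_af3a4a_an.P1.CHK.BIG.J2.t384_0 (by decide) (by decide))

/-- the range J -/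
theorem rangeJ : KPr 384 385 404 := J384

end Pool.Agent.Lib.MP_af3a4a_an.P1.CHK.BIG
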