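import Pool.Agent.Lib.MP_af3a4a_an.P1.CHK.BIG.K0
import Pool.Agent.Lib.MP_af3a4a_an.P1.CHK.BIG.K1
import Pool.Agent.Lib.MP_af3a4a_an.P1.CHK.BIG.K2
import Pool.Agent.Lib.MP_af3a4a_an.P1.CHK.BIG.K3
import Pool.Agent.Lib.MP_af3a4a_an.P1.H11.Sound

/-!
# BIGR, range K: the chain in `K` (council 2, helper11)
-/

set_option autoImplicit false

namespace Pool.Agent.Lib.MP_af3a4a_an.P1.CHK.BIG

open Pool.Agent.Lib.MP_af3a4a_an.P1.H11

theorem K23 : KPr 23 404 424 :=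
  KPr.step (Or.inr rfl) (by norm_num)
    (data_sound Pool.Agent.Lib.MP_af3a4a_an.P1.CHK.BIG.K0.n23_0 Pool.Agent.Lib.MP_af3a4a_an.P1.CHK.BIG.K0.t23_0 (by decide) (by decide))

theorem K27 : KPr 27 404 424 :=
  KPr.step (Or.inl K23) (by norm_num)
    (data_sound Pool.Agent.Lib.MP_af3a4a_an.P1.CHK.BIG.K0.n27_0 Pool.Agent.Lib.MP_af3a4a_an.P1.CHK.BIG.K0.t27_0 (by decide) (by decide))

theorem K31 : KPr 31 404 424 :=
  KPr.step (Or.inl K27) (by norm_num)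
    (data_sound Pool.Agent.Lib.MP_af3a4a_an.P1.CHK.BIG.K0.n31_0 Pool.Agent.Lib.MP_af3a4a_an.P1.CHK.BIG.K0.t31_0 (by decide) (by decide))

theorem K35 : KPr 35 404 424 :=
  KPr.step (Or.inl K31) (by norm_num)
    (data_sound Pool.Agent.Lib.MP_af3a4a_an.P1.CHK.BIG.K0.n35_0 Pool.Agent.Lib.MP_af3a4a_an.P1.CHK.BIG.K0.t35_0 (by decide) (by decide))

theorem K40 : KPr 40 404 424 :=
  KPr.step (Or.inl K35) (by norm_num)
    (data_sound Pool.Agent.Lib.MP_af3a4a_an.P1.CHK.BIG.K0.n40_0 Pool.Agent.Lib.MP_af3a4a_an.P1.CHK.BIG.K0.t40_0 (by decide) (by decide))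

theorem K44 : KPr 44 404 424 :=
  KPr.step (Or.inl K40) (by norm_num)
    (data_sound Pool.Agent.Lib.MP_af3a4a_an.P1.CHK.BIG.K0.n44_0 Pool.Agent.Lib.MP_af3a4a_an.P1.CHK.BIG.K0.t44_0 (by decide) (by decide))

theorem K46 : KPr 46 404 424 :=
  KPr.step (Or.inl K44) (by norm_num)
    (data_sound Pool.Agent.Lib.MP_af3a4a_an.P1.CHK.BIG.K0.n46_0 Pool.Agent.Lib.MP_af3a4a_an.P1.CHK.BIG.K0.t46_0 (by decide) (by decide))

theorem K48 : KPr 48 404 424 :=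
  KPr.step (Or.inl K46) (by norm_num)
    (data_sound Pool.Agent.Lib.MP_af3a4a_an.P1.CHK.BIG.K0.n48_0 Pool.Agent.Lib.MP_af3a4a_an.P1.CHK.BIG.K0.t48_0 (by decide) (by decide))

theorem K50 : KPr 50 404 424 :=
  KPr.step (Or.inl K48) (by norm_num)
    (data_sound Pool.Agent.Lib.MP_af3a4a_an.P1.CHK.BIG.K0.n50_0 Pool.Agent.Lib.MP_af3a4a_an.P1.CHK.BIG.K0.t50_0 (by decide) (by decide))

theorem K52 : KPr 52 404 424 :=
  KPr.step (Or.inl K50) (by norm_num)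
    (data_sound Pool.Agent.Lib.MP_af3a4a_an.P1.CHK.BIG.K0.n52_0 Pool.Agent.Lib.MP_af3a4a_an.P1.CHK.BIG.K0.t52_0 (by decide) (by decide))

theorem K53 : KPr 53 404 424 :=
  KPr.step (Or.inl K52) (by norm_num)
    (data_sound Pool.Agent.Lib.MP_af3a4a_an.P1.CHK.BIG.K0.n53_0 Pool.Agent.Lib.MP_af3a4a_an.P1.CHK.BIG.K0.t53_0 (by decide) (by decide))

theorem K54 : KPr 54 404 424 :=
  KPr.step (Or.inl K53) (by norm_num)
    (data_sound Pool.Agent.Lib.MP_af3a4a_an.P1.CHK.BIG.K0.n54_0 Pool.Agent.Lib.MP_af3a4a_an.P1.CHK.BIG.K0.t54_0 (by decide) (by decide))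

theorem K55 : KPr 55 404 424 :=
  KPr.step (Or.inl K54) (by norm_num)
    (data_sound Pool.Agent.Lib.MP_af3a4a_an.P1.CHK.BIG.K0.n55_0 Pool.Agent.Lib.MP_af3a4a_an.P1.CHK.BIG.K0.t55_0 (by decide) (by decide))

theorem K56 : KPr 56 404 424 :=
  KPr.step (Or.inl K55) (by norm_num)
    (data_sound Pool.Agent.Lib.MP_af3a4a_an.P1.CHK.BIG.K0.n56_0 Pool.Agent.Lib.MP_af3a4a_an.P1.CHK.BIG.K0.t56_0 (by decide) (by decide))

theorem K57 : KPr 57 404 424 :=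
  KPr.step (Or.inl K56) (by norm_num)
    (data_sound Pool.Agent.Lib.MP_af3a4a_an.P1.CHK.BIG.K0.n57_0 Pool.Agent.Lib.MP_af3a4a_an.P1.CHK.BIG.K0.t57_0 (by decide) (by decide))

theorem K58 : KPr 58 404 424 :=
  KPr.step (Or.inl K57) (by norm_num)
    (data_sound Pool.Agent.Lib.MP_af3a4a_an.P1.CHK.BIG.K0.n58_0 Pool.Agent.Lib.MP_af3a4a_an.P1.CHK.BIG.K0.t58_0 (by decide) (by decide))

theorem K60 : KPr 60 404 424 :=
  KPr.step (Or.inl K58) (by norm_num)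
    (data_sound Pool.Agent.Lib.MP_af3a4a_an.P1.CHK.BIG.K1.n60_0 Pool.Agent.Lib.MP_af3a4a_an.P1.CHK.BIG.K1.t60_0 (by decide) (by decide))

theorem K62 : KPr 62 404 424 :=
  KPr.step (Or.inl K60) (by norm_num)
    (data_sound Pool.Agent.Lib.MP_af3a4a_an.P1.CHK.BIG.K1.n62_0 Pool.Agent.Lib.MP_af3a4a_an.P1.CHK.BIG.K1.t62_0 (by decide) (by decide))

theorem K64 : KPr 64 404 424 :=
  KPr.step (Or.inl K62) (by norm_num)
    (data_sound Pool.Agent.Lib.MP_af3a4a_an.P1.CHK.BIG.K1.n64_0 Pool.Agent.Lib.MP_af3a4a_an.P1.CHK.BIG.K1.t64_0 (by decide) (by decide))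

theorem K66 : KPr 66 404 424 :=
  KPr.step (Or.inl K64) (by norm_num)
    (data_sound Pool.Agent.Lib.MP_af3a4a_an.P1.CHK.BIG.K1.n66_0 Pool.Agent.Lib.MP_af3a4a_an.P1.CHK.BIG.K1.t66_0 (by decide) (by decide))

theorem K68 : KPr 68 404 424 :=
  KPr.step (Or.inl K66) (by norm_num)
    (data_sound Pool.Agent.Lib.MP_af3a4a_an.P1.CHK.BIG.K1.n68_0 Pool.Agent.Lib.MP_af3a4a_an.P1.CHK.BIG.K1.t68_0 (by decide) (by decide))

theorem K70 : KPr 70 404 424 :=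
  KPr.step (Or.inl K68) (by norm_num)
    (data_sound Pool.Agent.Lib.MP_af3a4a_an.P1.CHK.BIG.K1.n70_0 Pool.Agent.Lib.MP_af3a4a_an.P1.CHK.BIG.K1.t70_0 (by decide) (by decide))

theorem K72 : KPr 72 404 424 :=
  KPr.step (Or.inl K70) (by norm_num)
    (data_sound Pool.Agent.Lib.MP_af3a4a_an.P1.CHK.BIG.K1.n72_0 Pool.Agent.Lib.MP_af3a4a_an.P1.CHK.BIG.K1.t72_0 (by decide) (by decide))

theorem K74 : KPr 74 404 424 :=
  KPr.step (Or.inl K72) (by norm_num)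
    (data_sound Pool.Agent.Lib.MP_af3a4a_an.P1.CHK.BIG.K1.n74_0 Pool.Agent.Lib.MP_af3a4a_an.P1.CHK.BIG.K1.t74_0 (by decide) (by decide))

theorem K76 : KPr 76 404 424 :=
  KPr.step (Or.inl K74) (by norm_num)
    (data_sound Pool.Agent.Lib.MP_af3a4a_an.P1.CHK.BIG.K1.n76_0 Pool.Agent.Lib.MP_af3a4a_an.P1.CHK.BIG.K1.t76_0 (by decide) (by decide))

theorem K80 : KPr 80 404 424 :=
  KPr.step (Or.inl K76) (by norm_num)
    (data_sound Pool.Agent.Lib.MP_af3a4a_an.P1.CHK.BIG.K1.n80_0 Pool.Agent.Lib.MP_af3a4a_an.P1.CHK.BIG.K1.t80_0 (by decide) (by decide))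

theorem K84 : KPr 84 404 424 :=
  KPr.step (Or.inl K80) (by norm_num)
    (data_sound Pool.Agent.Lib.MP_af3a4a_an.P1.CHK.BIG.K1.n84_0 Pool.Agent.Lib.MP_af3a4a_an.P1.CHK.BIG.K1.t84_0 (by decide) (by decide))

theorem K88 : KPr 88 404 424 :=
  KPr.step (Or.inl K84) (by norm_num)
    (data_sound Pool.Agent.Lib.MP_af3a4a_an.P1.CHK.BIG.K2.n88_0 Pool.Agent.Lib.MP_af3a4a_an.P1.CHK.BIG.K2.t88_0 (by decide) (by decide))

theorem K92 : KPr 92 404 424 :=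
  KPr.step (Or.inl K88) (by norm_num)
    (data_sound Pool.Agent.Lib.MP_af3a4a_an.P1.CHK.BIG.K2.n92_0 Pool.Agent.Lib.MP_af3a4a_an.P1.CHK.BIG.K2.t92_0 (by decide) (by decide))

theorem K96 : KPr 96 404 424 :=
  KPr.step (Or.inl K92) (by norm_num)
    (data_sound Pool.Agent.Lib.MP_af3a4a_an.P1.CHK.BIG.K2.n96_0 Pool.Agent.Lib.MP_af3a4a_an.P1.CHK.BIG.K2.t96_0 (by decide) (by decide))

theorem K100 : KPr 100 404 424 :=
  KPr.step (Or.inl K96) (by norm_num)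
    (data_sound Pool.Agent.Lib.MP_af3a4a_an.P1.CHK.BIG.K2.n100_0 Pool.Agent.Lib.MP_af3a4a_an.P1.CHK.BIG.K2.t100_0 (by decide) (by decide))

theorem K104 : KPr 104 404 424 :=
  KPr.step (Or.inl K100) (by norm_num)
    (data_sound Pool.Agent.Lib.MP_af3a4a_an.P1.CHK.BIG.K2.n104_0 Pool.Agent.Lib.MP_af3a4a_an.P1.CHK.BIG.K2.t104_0 (by decide) (by decide))

theorem K110 : KPr 110 404 424 :=
  KPr.step (Or.inl K104) (by norm_num)
    (data_sound Pool.Agent.Lib.MP_af3a4a_an.P1.CHK.BIG.K2.n110_0 Pool.Agent.Lib.MP_af3a4a_an.P1.CHK.BIG.K2.t110_0 (by decide) (by decide))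

theorem K116 : KPr 116 404 424 :=
  KPr.step (Or.inl K110) (by norm_num)
    (data_sound Pool.Agent.Lib.MP_af3a4a_an.P1.CHK.BIG.K2.n116_0 Pool.Agent.Lib.MP_af3a4a_an.P1.CHK.BIG.K2.t116_0 (by decide) (by decide))

theorem K122 : KPr 122 404 424 :=
  KPr.step (Or.inl K116) (by norm_num)
    (data_sound Pool.Agent.Lib.MP_af3a4a_an.P1.CHK.BIG.K2.n122_0 Pool.Agent.Lib.MP_af3a4a_an.P1.CHK.BIG.K2.t122_0 (by decide) (by decide))

theorem K128 : KPr 128 404 424 :=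
  KPr.step (Or.inl K122) (by norm_num)
    (data_sound Pool.Agent.Lib.MP_af3a4a_an.P1.CHK.BIG.K2.n128_0 Pool.Agent.Lib.MP_af3a4a_an.P1.CHK.BIG.K2.t128_0 (by decide) (by decide))

theorem K136 : KPr 136 404 424 :=
  KPr.step (Or.inl K128) (by norm_num)
    (data_sound Pool.Agent.Lib.MP_af3a4a_an.P1.CHK.BIG.K2.n136_0 Pool.Agent.Lib.MP_af3a4a_an.P1.CHK.BIG.K2.t136_0 (by decide) (by decide))

theorem K144 : KPr 144 404 424 :=
  KPr.step (Or.inl K136) (by norm_num)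
    (data_sound Pool.Agent.Lib.MP_af3a4a_an.P1.CHK.BIG.K2.n144_0 Pool.Agent.Lib.MP_af3a4a_an.P1.CHK.BIG.K2.t144_0 (by decide) (by decide))

theorem K152 : KPr 152 404 424 :=
  KPr.step (Or.inl K144) (by norm_num)
    (data_sound Pool.Agent.Lib.MP_af3a4a_an.P1.CHK.BIG.K2.n152_0 Pool.Agent.Lib.MP_af3a4a_an.P1.CHK.BIG.K2.t152_0 (by decide) (by decide))

theorem K160 : KPr 160 404 424 :=
  KPr.step (Or.inl K152) (by norm_num)
    (data_sound Pool.Agent.Lib.MP_af3a4a_an.P1.CHK.BIG.K2.n160_0 Pool.Agent.Lib.MP_af3a4a_an.P1.CHK.BIG.K2.t160_0 (by decide) (by decide))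

theorem K176 : KPr 176 404 424 :=
  KPr.step (Or.inl K160) (by norm_num)
    (data_sound Pool.Agent.Lib.MP_af3a4a_an.P1.CHK.BIG.K2.n176_0 Pool.Agent.Lib.MP_af3a4a_an.P1.CHK.BIG.K2.t176_0 (by decide) (by decide))

theorem K192 : KPr 192 404 424 :=
  KPr.step (Or.inl K176) (by norm_num)
    (data_sound Pool.Agent.Lib.MP_af3a4a_an.P1.CHK.BIG.K2.n192_0 Pool.Agent.Lib.MP_af3a4a_an.P1.CHK.BIG.K2.t192_0 (by decide) (by decide))

theorem K208 : KPr 208 404 424 :=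
  KPr.step (Or.inl K192) (by norm_num)
    (data_sound Pool.Agent.Lib.MP_af3a4a_an.P1.CHK.BIG.K3.n208_0 Pool.Agent.Lib.MP_af3a4a_an.P1.CHK.BIG.K3.t208_0 (by decide) (by decide))

theorem K224 : KPr 224 404 424 :=
  KPr.step (Or.inl K208) (by norm_num)
    (data_sound Pool.Agent.Lib.MP_af3a4a_an.P1.CHK.BIG.K3.n224_0 Pool.Agent.Lib.MP_af3a4a_an.P1.CHK.BIG.K3.t224_0 (by decide) (by decide))

theorem K240 : KPr 240 404 424 :=
  KPr.step (Or.inl K224) (by norm_num)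
    (data_sound Pool.Agent.Lib.MP_af3a4a_an.P1.CHK.BIG.K3.n240_0 Pool.Agent.Lib.MP_af3a4a_an.P1.CHK.BIG.K3.t240_0 (by decide) (by decide))

theorem K256 : KPr 256 404 424 :=
  KPr.step (Or.inl K240) (by norm_num)
    (data_sound Pool.Agent.Lib.MP_af3a4a_an.P1.CHK.BIG.K3.n256_0 Pool.Agent.Lib.MP_af3a4a_an.P1.CHK.BIG.K3.t256_0 (by decide) (by decide))

theorem K272 : KPr 272 404 424 :=
  KPr.step (Or.inl K256) (by norm_num)
    (data_sound Pool.Agent.Lib.MP_af3a4a_an.P1.CHK.BIG.K3.n272_0 Pool.Agent.Lib.MP_af3a4a_an.P1.CHK.BIG.K3.t272_0 (by decide) (by decide))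

theorem K288 : KPr 288 404 424 :=
  KPr.step (Or.inl K272) (by norm_num)
    (data_sound Pool.Agent.Lib.MP_af3a4a_an.P1.CHK.BIG.K3.n288_0 Pool.Agent.Lib.MP_af3a4a_an.P1.CHK.BIG.K3.t288_0 (by decide) (by decide))

theorem K304 : KPr 304 404 424 :=
  KPr.step (Or.inl K288) (by norm_num)
    (data_sound Pool.Agent.Lib.MP_af3a4a_an.P1.CHK.BIG.K3.n304_0 Pool.Agent.Lib.MP_af3a4a_an.P1.CHK.BIG.K3.t304_0 (by decide) (by decide))

theorem K320 : KPr 320 404 424 :=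
  KPr.step (Or.inl K304) (by norm_num)
    (data_sound Pool.Agent.Lib.MP_af3a4a_an.P1.CHK.BIG.K3.n320_0 Pool.Agent.Lib.MP_af3a4a_an.P1.CHK.BIG.K3.t320_0 (by decide) (by decide))

theorem K352 : KPr 352 404 424 :=
  KPr.step (Or.inl K320) (by norm_num)
    (data_sound Pool.Agent.Lib.MP_af3a4a_an.P1.CHK.BIG.K3.n352_0 Pool.Agent.Lib.MP_af3a4a_an.P1.CHK.BIG.K3.t352_0 (by decide) (by decide))

theorem K384 : KPr 384 404 424 :=
  KPr.step (Or.inl K352) (by norm_num)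
    (data_sound Pool.Agent.Lib.MP_af3a4a_an.P1.CHK.BIG.K3.n384_0 Pool.Agent.Lib.MP_af3a4a_an.P1.CHK.BIG.K3.t384_0 (by decide) (by decide))

/-- the range K -/
theorem rangeK : KPr 384 404 424 := K384

end Pool.Agent.Lib.MP_af3a4a_an.P1.CHK.BIG
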